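import Mathlib

/-!
# Lattices: basic facts
-/

set_option autoImplicit false

open MeasureTheory Set Filter Module
open scoped Matrix RealInnerProductSpace

namespace Pool.Agent.H61.MV

variable {ι : Type} [Fintype ι] [DecidableEq ι]

/-- the lattice vector `A n` -/
noncomputable def vc (A : Matrix ι ι ℝ) (n : ι → ℤ) : EuclideanSpace ℝ ι :=
  WithLp.toLp 2 (A.mulVec (fun i => (n i : ℝ)))

/-- the matrix of the dual lattice -/
noncomputable def dm (A : Matrix ι ι ℝ) : Matrix ι ι ℝ := (A⁻¹).transpose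

/-- the number of lattice points in a ball -/
noncomputable def cnt (A : Matrix ι ι ℝ) (r : ℝ) : ℕ := Set.ncard {n : ι → ℤ | ‖vc A n‖ ≤ r}

/-- the length of the shortest vector -/
noncomputable def l1 (A : Matrix ι ι ℝ) : ℝ :=
  sInf ((fun n => ‖vc A n‖) '' {n : ι → ℤ | n ≠ 0})

lemma vc_add (A : Matrix ι ι ℝ) (n k : ι → ℤ) : vc A (n + k) = vc A n + vc A k := by
  unfold vc
  rw [← WithLp.toLp_add, ← Matrix.mulVec_add]
  congr 2
  ext i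
  simp

lemma vc_zero (A : Matrix ι ι ℝ) : vc A 0 = 0 := by
  unfold vc
  have : (fun i => (((0 : ι → ℤ) i : ℤ) : ℝ)) = 0 := by ext i; simp
  rw [this, Matrix.mulVec_zero]
  rfl

lemma vc_neg (A : Matrix ι ι ℝ) (n : ι → ℤ) : vc A (-n) = -vc A n := by
  have h := vc_add A n (-n)
  rw [add_neg_cancel, vc_zero] at h
  exact (neg_eq_of_add_eq_zero_right h.symm).symm

lemma vc_sub (A : Matrix ι ι ℝ) (n k : ι → ℤ) : vc A (n - k) = vc A n - vc A k := by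
  rw [sub_eq_add_neg, vc_add, vc_neg, sub_eq_add_neg]

lemma inner_vc (A : Matrix ι ι ℝ) (hA : A.det ≠ 0) (n k : ι → ℤ) :
    ⟪vc A n, vc (dm A) k⟫ = ((∑ i, n i * k i : ℤ) : ℝ) := by
  have h1 : ⟪vc A n, vc (dm A) k⟫ =
      (A.mulVec (fun i => (n i : ℝ))) ⬝ᵥ ((A⁻¹).transpose.mulVec (fun i => (k i : ℝ))) := by
    unfold vc dm
    rw [EuclideanSpace.inner_eq_star_dotProduct]
    simp [dotProduct_comm]
  rw [h1, Matrix.dotProduct_mulVec, Matrix.vecMul_transpose, Matrix.mulVec_mulVec,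
    Matrix.nonsing_inv_mul _ (isUnit_iff_ne_zero.mpr hA), Matrix.one_mulVec]
  simp [dotProduct]

lemma det_dm (A : Matrix ι ι ℝ) : (dm A).det = A.det⁻¹ := by
  unfold dm
  rw [Matrix.det_transpose, Matrix.det_nonsing_inv, Ring.inverse_eq_inv']

lemma det_dm_ne {A : Matrix ι ι ℝ} (hA : A.det ≠ 0) : (dm A).det ≠ 0 := by
  rw [det_dm]
  exact inv_ne_zero hA

lemma dm_dm {A : Matrix ι ι ℝ} (hA : A.det ≠ 0) : dm (dm A) = A := by
  unfold dm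
  rw [Matrix.transpose_nonsing_inv, Matrix.transpose_transpose,
    Matrix.nonsing_inv_nonsing_inv _ (isUnit_iff_ne_zero.mpr hA)]

lemma lower (A : Matrix ι ι ℝ) (hA : A.det ≠ 0) :
    ∃ δ : ℝ, 0 < δ ∧ ∀ n : ι → ℤ, ∀ i, δ * |(n i : ℝ)| ≤ ‖vc A n‖ := by
  classical
  let T : EuclideanSpace ℝ ι →ₗ[ℝ] (ι → ℝ) :=
    (Matrix.toLin' A⁻¹).comp (WithLp.linearEquiv 2 ℝ (ι → ℝ)).toLinearMap
  let T' := LinearMap.toContinuousLinearMap T
  have hT : ∀ n : ι → ℤ, T' (vc A n) = fun i => (n i : ℝ) := by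
    intro n
    change (A⁻¹).mulVec (A.mulVec (fun i => (n i : ℝ))) = _
    rw [Matrix.mulVec_mulVec, Matrix.nonsing_inv_mul _ (isUnit_iff_ne_zero.mpr hA),
      Matrix.one_mulVec]
  refine ⟨(‖T'‖ + 1)⁻¹, by positivity, fun n i => ?_⟩
  have h1 : ‖(fun i => (n i : ℝ))‖ ≤ ‖T'‖ * ‖vc A n‖ := by
    rw [← hT n]
    exact T'.le_opNorm _
  have h2 : |(n i : ℝ)| ≤ ‖(fun i => (n i : ℝ))‖ := norm_le_pi_norm (fun i => (n i : ℝ)) i
  rw [inv_mul_le_iff₀ (by positivity)]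
  have h3 : 0 ≤ ‖vc A n‖ := norm_nonneg _
  nlinarith

lemma vc_inj (A : Matrix ι ι ℝ) (hA : A.det ≠ 0) (n : ι → ℤ) (h : vc A n = 0) : n = 0 := by
  obtain ⟨δ, hδ, h1⟩ := lower A hA
  ext i
  have h2 := h1 n i
  rw [h, norm_zero] at h2
  have h3 : |(n i : ℝ)| ≤ 0 := by
    by_contra h4
    push Not at h4
    have := mul_pos hδ h4
    linarith
  have h4 : (n i : ℝ) = 0 := abs_eq_zero.mp (le_antisymm h3 (abs_nonneg _))
  exact_mod_cast h4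

lemma fin_ball (A : Matrix ι ι ℝ) (hA : A.det ≠ 0) (r : ℝ) :
    {n : ι → ℤ | ‖vc A n‖ ≤ r}.Finite := by
  obtain ⟨δ, hδ, h1⟩ := lower A hA
  obtain ⟨M, hM⟩ := exists_nat_ge (r / δ)
  refine Set.Finite.subset (Set.finite_Icc (fun _ => -(M : ℤ)) (fun _ => (M : ℤ))) ?_
  intro n hn
  have h2 : ∀ i, |(n i : ℝ)| ≤ M := fun i => by
    have h3 := (h1 n i).trans hn
    have h4 : |(n i : ℝ)| ≤ r / δ := by
      rw [le_div_iff₀ hδ]
      linarith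
    exact h4.trans hM
  have h3 : ∀ i, |n i| ≤ (M : ℤ) := fun i => by
    have := h2 i
    exact_mod_cast this
  exact ⟨fun i => (abs_le.mp (h3 i)).1, fun i => (abs_le.mp (h3 i)).2⟩

lemma l1_nonneg (A : Matrix ι ι ℝ) : 0 ≤ l1 A := by
  refine Real.sInf_nonneg ?_
  rintro x ⟨n, _, rfl⟩
  exact norm_nonneg _

lemma l1_le (A : Matrix ι ι ℝ) (n : ι → ℤ) (hn : n ≠ 0) : l1 A ≤ ‖vc A n‖ := by
  refine csInf_le ⟨0, ?_⟩ ⟨n, hn, rfl⟩
  rintro x ⟨n, _, rfl⟩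
  exact norm_nonneg _

lemma l1_pos [Nonempty ι] (A : Matrix ι ι ℝ) (hA : A.det ≠ 0) : 0 < l1 A := by
  obtain ⟨δ, hδ, h1⟩ := lower A hA
  refine lt_of_lt_of_le hδ ?_
  refine le_csInf ?_ ?_
  · obtain ⟨i⟩ := ‹Nonempty ι›
    exact ⟨_, Pi.single i 1, by simp, rfl⟩
  · rintro x ⟨n, hn, rfl⟩
    have hn' : n ≠ 0 := hn
    obtain ⟨i, hi⟩ := Function.ne_iff.mp hn'
    have h2 := h1 n i
    have h3 : (1 : ℝ) ≤ |(n i : ℝ)| := by
      have : (1 : ℤ) ≤ |n i| := Int.one_le_abs hi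
      exact_mod_cast this
    have h4 : δ * 1 ≤ δ * |(n i : ℝ)| := mul_le_mul_of_nonneg_left h3 hδ.le
    show δ ≤ ‖vc A n‖
    linarith

lemma one_le_cnt (A : Matrix ι ι ℝ) (hA : A.det ≠ 0) {r : ℝ} (hr : 0 ≤ r) : 1 ≤ cnt A r := by
  rw [Nat.one_le_iff_ne_zero, cnt, Ne, Set.ncard_eq_zero (fin_ball A hA r)]
  intro h
  have : (0 : ι → ℤ) ∈ {n : ι → ℤ | ‖vc A n‖ ≤ r} := by
    simp only [mem_ofPred_eq, vc_zero, norm_zero]
    exact hr
  rw [h] at this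
  exact this

lemma cnt_mono (A : Matrix ι ι ℝ) (hA : A.det ≠ 0) {r s : ℝ} (h : r ≤ s) : cnt A r ≤ cnt A s :=
  Set.ncard_le_ncard (fun _ hn => le_trans hn h) (fin_ball A hA s)

end Pool.Agent.H61.MV
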