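import Pool.Agent.H61.MV.Pack

/-!
# The rank dichotomy
-/

set_option autoImplicit false

open MeasureTheory Set Filter Module
open scoped Matrix RealInnerProductSpace ENNReal

namespace Pool.Agent.H61.MV

variable {ι : Type} [Fintype ι] [DecidableEq ι]

/-- the span of the lattice vectors of norm at most `r` -/
noncomputable def spb (A : Matrix ι ι ℝ) (r : ℝ) : Submodule ℝ (EuclideanSpace ℝ ι) :=
  Submodule.span ℝ (vc A '' {n : ι → ℤ | ‖vc A n‖ ≤ r})

theorem cnt_le_span [Nonempty ι] (A : Matrix ι ι ℝ) (hA : A.det ≠ 0) (r : ℝ) (hr : 0 ≤ r) :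
    (cnt A r : ℝ) ≤ (1 + 2 * r / l1 A) ^ finrank ℝ (spb A r) := by
  classical
  have hinj : Function.Injective (vc A) := by
    intro n n' h
    have h3 : vc A (n - n') = 0 := by rw [vc_sub, h, sub_self]
    exact sub_eq_zero.mp (vc_inj A hA _ h3)
  let F : Finset (ι → ℤ) := (fin_ball A hA r).toFinset
  have hF : ∀ n, n ∈ F ↔ ‖vc A n‖ ≤ r := fun n => by simp [F]
  let g : {n // n ∈ F} → spb A r := fun n =>
    ⟨vc A n.1, Submodule.subset_span ⟨n.1, (hF _).mp n.2, rfl⟩⟩
  have hg : Function.Injective g := by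
    intro n n' h
    have := congrArg Subtype.val h
    exact Subtype.ext (hinj this)
  have hp := pack (Finset.univ.image g) (l1 A) r (l1_pos A hA) hr
    (by
      intro x hx
      obtain ⟨n, _, rfl⟩ := Finset.mem_image.mp hx
      exact (hF n.1).mp n.2)
    (by
      intro x hx y hy hxy
      obtain ⟨n, _, rfl⟩ := Finset.mem_image.mp hx
      obtain ⟨n', _, rfl⟩ := Finset.mem_image.mp hy
      have h1 : n.1 - n'.1 ≠ 0 := by
        intro h
        apply hxy
        rw [Subtype.ext (sub_eq_zero.mp h)]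
      have h2 := l1_le A _ h1
      rw [vc_sub] at h2
      exact h2)
  rw [Finset.card_image_of_injective _ hg, Finset.card_univ, Fintype.card_coe] at hp
  have hFc : cnt A r = F.card := Set.ncard_eq_toFinset_card _ (fin_ball A hA r)
  rw [hFc]
  exact hp

theorem orth (A : Matrix ι ι ℝ) (hA : A.det ≠ 0) (r : ℝ) (hr : 0 < r) (n k : ι → ℤ)
    (h1 : ‖vc A n‖ ≤ r) (h2 : ‖vc (dm A) k‖ ≤ 1 / (2 * r)) : ⟪vc A n, vc (dm A) k⟫ = 0 := by
  have h3 : |⟪vc A n, vc (dm A) k⟫| ≤ 1 / 2 := by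
    refine (abs_real_inner_le_norm _ _).trans ?_
    refine (mul_le_mul h1 h2 (norm_nonneg _) hr.le).trans (le_of_eq ?_)
    field_simp
  rw [inner_vc A hA] at h3 ⊢
  have h4 : |(∑ i, n i * k i : ℤ)| < 1 := by
    have h5 : |((∑ i, n i * k i : ℤ) : ℝ)| < 1 := by linarith
    exact_mod_cast h5
  have h6 := Int.abs_lt_one_iff.mp h4
  rw [h6]
  simp

theorem rank_le (A : Matrix ι ι ℝ) (hA : A.det ≠ 0) (r : ℝ) (hr : 0 < r) :
    finrank ℝ (spb A r) + finrank ℝ (spb (dm A) (1 / (2 * r))) ≤ Fintype.card ι := by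
  have h1 : spb (dm A) (1 / (2 * r)) ≤ (spb A r)ᗮ := by
    refine Submodule.span_le.mpr ?_
    rintro x ⟨k, hk, rfl⟩
    rw [SetLike.mem_coe, Submodule.mem_orthogonal]
    intro u hu
    refine Submodule.span_induction (p := fun u _ => ⟪u, vc (dm A) k⟫ = 0) ?_ ?_ ?_ ?_ hu
    · rintro x ⟨n, hn, rfl⟩
      exact orth A hA r hr n k hn hk
    · simp
    · intro x y _ _ hx hy
      rw [inner_add_left, hx, hy, add_zero]
    · intro a x _ hx
      rw [inner_smul_left, hx, mul_zero]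
  have h2 := Submodule.finrank_mono h1
  have h3 := Submodule.finrank_add_finrank_orthogonal (spb A r)
  rw [finrank_euclideanSpace] at h3
  omega

/-- one of the two counting functions is small -/
theorem dich [Nonempty ι] (A : Matrix ι ι ℝ) (hA : A.det ≠ 0) (r : ℝ) (hr : 0 < r) :
    (cnt A r : ℝ) ≤ (1 + 2 * r / l1 A) ^ ((Fintype.card ι : ℝ) / 2) ∨
    (cnt (dm A) (1 / (2 * r)) : ℝ) ≤
      (1 + 1 / (r * l1 (dm A))) ^ ((Fintype.card ι : ℝ) / 2) := by
  have h1 := rank_le A hA r hr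
  have hl := l1_pos A hA
  have hl' := l1_pos (dm A) (det_dm_ne hA)
  have key : ∀ (x : ℝ) (k : ℕ), 0 ≤ x → 2 * k ≤ Fintype.card ι →
      (1 + x) ^ k ≤ (1 + x) ^ ((Fintype.card ι : ℝ) / 2) := by
    intro x k hx hk
    rw [← Real.rpow_natCast]
    refine Real.rpow_le_rpow_of_exponent_le (by linarith) ?_
    have : (2 * k : ℝ) ≤ Fintype.card ι := by exact_mod_cast hk
    linarith
  by_cases h : 2 * finrank ℝ (spb A r) ≤ Fintype.card ι
  · left
    exact (cnt_le_span A hA r hr.le).trans (key _ _ (by positivity) h)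
  · right
    have h2 : 2 * finrank ℝ (spb (dm A) (1 / (2 * r))) ≤ Fintype.card ι := by omega
    have h3 := cnt_le_span (dm A) (det_dm_ne hA) (1 / (2 * r)) (by positivity)
    have h4 : 2 * (1 / (2 * r)) / l1 (dm A) = 1 / (r * l1 (dm A)) := by field_simp
    rw [h4] at h3
    exact h3.trans (key _ _ (by positivity) h2)

end Pool.Agent.H61.MV
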