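import Pool.Agent.H61.MV.TB2

/-!
# Epstein sums and the theta function in the norm variable
-/

set_option autoImplicit false

open MeasureTheory Set Filter Module
open scoped Matrix RealInnerProductSpace ENNReal

namespace Pool.Agent.H61.MV

variable {ι : Type} [Fintype ι] [DecidableEq ι]

/-- the Epstein sum -/
noncomputable def Ep (σ : ℝ) (A : Matrix ι ι ℝ) : ℝ :=
  ∑' n : ι → ℤ, if n = 0 then 0 else ‖vc A n‖ ^ (-((Fintype.card ι : ℝ) * σ))

/-- the theta function minus one, in the norm variable -/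
noncomputable def gt (A : Matrix ι ι ℝ) (t : ℝ) : ℝ := Th A (t ^ ((2 : ℝ) / Fintype.card ι)) - 1

lemma intvec_mem (n : ι → ℤ) :
    (fun i => (n i : ℝ)) ∈ Submodule.span ℤ (Set.range (Pi.basisFun ℝ ι)) := by
  have h2 : (fun i => (n i : ℝ)) = ∑ i, n i • (Pi.basisFun ℝ ι) i := by
    ext j
    simp [Finset.sum_apply, Pi.single_apply]
  rw [h2]
  exact Submodule.sum_mem _ fun i _ => Submodule.smul_mem _ _ (Submodule.subset_span ⟨i, rfl⟩)

lemma summable_int (r : ℝ) (hr : r < -(Fintype.card ι : ℝ)) :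
    Summable (fun n : ι → ℤ => ‖(fun i => (n i : ℝ))‖ ^ r) := by
  have hf : finrank ℤ (Submodule.span ℤ (Set.range (Pi.basisFun ℝ ι))) = Fintype.card ι :=
    Module.finrank_eq_card_basis ((Pi.basisFun ℝ ι).restrictScalars ℤ)
  have h1 := ZLattice.summable_norm_rpow (Submodule.span ℤ (Set.range (Pi.basisFun ℝ ι))) r
    (by rw [hf]; exact hr)
  have hinj : Function.Injective (fun n : ι → ℤ =>
      (⟨fun i => (n i : ℝ), intvec_mem n⟩ : Submodule.span ℤ (Set.range (Pi.basisFun ℝ ι)))) := by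
    intro n k h
    have h2 : (fun i => (n i : ℝ)) = (fun i => (k i : ℝ)) := congrArg Subtype.val h
    ext i
    have h3 : (n i : ℝ) = (k i : ℝ) := congrFun h2 i
    exact_mod_cast h3
  have h4 := h1.comp_injective hinj
  exact h4

lemma summable_Ep (σ : ℝ) (hσ : 1 < σ) [Nonempty ι] (A : Matrix ι ι ℝ) (hA : A.det ≠ 0) :
    Summable (fun n : ι → ℤ => if n = 0 then 0 else ‖vc A n‖ ^ (-((Fintype.card ι : ℝ) * σ))) := by
  obtain ⟨δ, hδ, h1⟩ := lower A hA
  have hm : (0 : ℝ) < Fintype.card ι := by exact_mod_cast Fintype.card_pos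
  have hr : -((Fintype.card ι : ℝ) * σ) < -(Fintype.card ι : ℝ) := by nlinarith
  have h2 := (summable_int (ι := ι) _ hr).mul_left (δ ^ (-((Fintype.card ι : ℝ) * σ)))
  refine Summable.of_nonneg_of_le (fun n => ?_) (fun n => ?_) h2
  · split_ifs
    · exact le_rfl
    · positivity
  · split_ifs with hn
    · positivity
    · have h3 : δ * ‖(fun i => (n i : ℝ))‖ ≤ ‖vc A n‖ := by
        rw [← le_div_iff₀' hδ]
        refine (pi_norm_le_iff_of_nonneg (by positivity)).mpr fun i => ?_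
        rw [Real.norm_eq_abs, le_div_iff₀' hδ]
        exact h1 n i
      have h4 : 0 < ‖(fun i => (n i : ℝ))‖ := by
        rw [norm_pos_iff]
        intro h5
        apply hn
        ext i
        have := congrFun h5 i
        simpa using this
      rw [← Real.mul_rpow hδ.le h4.le]
      refine Real.rpow_le_rpow_of_nonpos (by positivity) h3 ?_
      have : 0 < (Fintype.card ι : ℝ) * σ := by positivity
      linarith

lemma l1_attained [Nonempty ι] (A : Matrix ι ι ℝ) (hA : A.det ≠ 0) :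
    ∃ n : ι → ℤ, n ≠ 0 ∧ ‖vc A n‖ = l1 A := by
  classical
  have hne : ∃ n : ι → ℤ, n ≠ 0 := by
    obtain ⟨i⟩ := ‹Nonempty ι›
    exact ⟨Pi.single i 1, by simp⟩
  obtain ⟨n0, hn0⟩ := hne
  have hfin : ({n : ι → ℤ | ‖vc A n‖ ≤ ‖vc A n0‖} ∩ {n | n ≠ 0}).Finite :=
    (fin_ball A hA _).subset inter_subset_left
  obtain ⟨n, hn, hmin⟩ := Set.exists_min_image _ (fun n => ‖vc A n‖) hfin ⟨n0, (le_refl ‖vc A n0‖ : ‖vc A n0‖ ≤ ‖vc A n0‖), hn0⟩
  refine ⟨n, hn.2, le_antisymm ?_ (l1_le A n hn.2)⟩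
  refine le_csInf ⟨_, n0, hn0, rfl⟩ ?_
  rintro x ⟨k, hk, rfl⟩
  show ‖vc A n‖ ≤ ‖vc A k‖
  rcases le_total ‖vc A k‖ ‖vc A n0‖ with h | h
  · exact hmin k ⟨h, hk⟩
  · exact (hmin n0 ⟨(le_refl ‖vc A n0‖ : ‖vc A n0‖ ≤ ‖vc A n0‖), hn0⟩).trans h

/-- (B4) -/
theorem l1_rpow_le (σ : ℝ) (hσ : 1 < σ) [Nonempty ι] (A : Matrix ι ι ℝ) (hA : A.det ≠ 0) :
    l1 A ^ (-((Fintype.card ι : ℝ) * σ)) ≤ Ep σ A := by
  obtain ⟨n, hn, h⟩ := l1_attained A hA
  have h1 := (summable_Ep σ hσ A hA).le_tsum n fun k _ => by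
    split_ifs
    · exact le_rfl
    · positivity
  rw [if_neg hn, h] at h1
  exact h1

lemma Ep_nonneg (σ : ℝ) (A : Matrix ι ι ℝ) : 0 ≤ Ep σ A := by
  refine tsum_nonneg fun n => ?_
  split_ifs
  · exact le_rfl
  · positivity

lemma gt_nonneg [Nonempty ι] (A : Matrix ι ι ℝ) (hA : A.det ≠ 0) (t : ℝ) (ht : 0 < t) :
    0 ≤ gt A t := by
  have := one_le_Th A hA (t ^ ((2 : ℝ) / Fintype.card ι)) (Real.rpow_pos_of_pos ht _)
  unfold gt
  linarith

lemma gt_anti (A : Matrix ι ι ℝ) (hA : A.det ≠ 0) : AntitoneOn (gt A) (Ioi 0) := by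
  intro t ht t' ht' h
  unfold gt
  have h1 : t ^ ((2 : ℝ) / Fintype.card ι) ≤ t' ^ ((2 : ℝ) / Fintype.card ι) :=
    Real.rpow_le_rpow (le_of_lt ht) h (by positivity)
  have := Th_anti A hA (Real.rpow_pos_of_pos ht _) h1
  linarith

/-- (B1) -/
theorem gt_B1 [Nonempty ι] (hP : Poi) (A : Matrix ι ι ℝ) (hA : A.det ≠ 0) (t : ℝ) (ht : 0 < t) :
    gt A t ≤ Ct (Fintype.card ι) * (t⁻¹ / |A.det| + t ^ (-(1 / 2 : ℝ)) * al A) := by
  have hm : (0 : ℝ) < Fintype.card ι := by exact_mod_cast Fintype.card_pos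
  have h := TBr hP A hA (t ^ (-(1 / (Fintype.card ι : ℝ)))) (Real.rpow_pos_of_pos ht _)
  have e1 : 1 / (t ^ (-(1 / (Fintype.card ι : ℝ)))) ^ 2 = t ^ ((2 : ℝ) / Fintype.card ι) := by
    rw [← Real.rpow_natCast (t ^ (-(1 / (Fintype.card ι : ℝ)))) 2, ← Real.rpow_mul ht.le,
      one_div, ← Real.rpow_neg ht.le]
    congr 1
    push_cast
    ring
  have e2 : (t ^ (-(1 / (Fintype.card ι : ℝ)))) ^ Fintype.card ι = t⁻¹ := by
    rw [← Real.rpow_natCast (t ^ (-(1 / (Fintype.card ι : ℝ)))), ← Real.rpow_mul ht.le,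
      ← Real.rpow_neg_one]
    congr 1
    field_simp
  have e3 : (t ^ (-(1 / (Fintype.card ι : ℝ)))) ^ ((Fintype.card ι : ℝ) / 2) =
      t ^ (-(1 / 2 : ℝ)) := by
    rw [← Real.rpow_mul ht.le]
    congr 1
    field_simp
  rw [e1, e2, e3] at h
  exact h

lemma rpow_le_exp (q x : ℝ) (hq : 0 ≤ q) (hx : 0 < x) :
    Real.exp (-Real.pi * x) ≤ (⌈q⌉₊.factorial : ℝ) * x ^ (-q) := by
  have hf : (1 : ℝ) ≤ ⌈q⌉₊.factorial := by
    exact_mod_cast Nat.one_le_iff_ne_zero.mpr (Nat.factorial_ne_zero _)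
  have h2 : x ^ q ≤ ⌈q⌉₊.factorial * Real.exp x := by
    rcases le_total x 1 with h | h
    · have h3 : x ^ q ≤ 1 := Real.rpow_le_one hx.le h hq
      have h4 : (1 : ℝ) ≤ Real.exp x := Real.one_le_exp hx.le
      nlinarith
    · have h3 : x ^ q ≤ x ^ (⌈q⌉₊ : ℝ) :=
        Real.rpow_le_rpow_of_exponent_le h (Nat.le_ceil q)
      rw [Real.rpow_natCast] at h3
      have h4 := Real.pow_div_factorial_le_exp x hx.le ⌈q⌉₊
      rw [div_le_iff₀ (by linarith)] at h4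
      linarith
  have h5 : Real.exp x ≤ Real.exp (Real.pi * x) := by
    refine Real.exp_le_exp.mpr ?_
    have := Real.pi_gt_three
    nlinarith
  have h6 : x ^ q ≤ ⌈q⌉₊.factorial * Real.exp (Real.pi * x) :=
    h2.trans (mul_le_mul_of_nonneg_left h5 (by linarith))
  rw [neg_mul, Real.exp_neg, Real.rpow_neg hx.le, ← div_eq_mul_inv,
    le_div_iff₀ (Real.rpow_pos_of_pos hx _), inv_mul_le_iff₀ (Real.exp_pos _)]
  linarith

/-- the constant in (B3) -/
noncomputable def C3 (m : ℕ) (σ : ℝ) : ℝ := (⌈(m : ℝ) * σ / 2⌉₊.factorial : ℝ)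

lemma one_le_C3 (m : ℕ) (σ : ℝ) : 1 ≤ C3 m σ := by
  unfold C3
  exact_mod_cast Nat.one_le_iff_ne_zero.mpr (Nat.factorial_ne_zero _)

/-- (B3) -/
theorem gt_B3 [Nonempty ι] (σ : ℝ) (hσ : 1 < σ) (A : Matrix ι ι ℝ) (hA : A.det ≠ 0) (t : ℝ)
    (ht : 0 < t) : gt A t ≤ C3 (Fintype.card ι) σ * (t ^ (-σ) * Ep σ A) := by
  have hm : (0 : ℝ) < Fintype.card ι := by exact_mod_cast Fintype.card_pos
  unfold gt
  rw [Th_sub_one A hA _ (Real.rpow_pos_of_pos ht _), ← mul_assoc]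
  unfold Ep
  rw [← tsum_mul_left]
  have hs := (summable_Ep σ hσ A hA).mul_left (C3 (Fintype.card ι) σ * t ^ (-σ))
  have hle : ∀ n : ι → ℤ, (if n = 0 then 0 else
      Real.exp (-Real.pi * (t ^ ((2 : ℝ) / Fintype.card ι) * ‖vc A n‖ ^ 2))) ≤
      C3 (Fintype.card ι) σ * t ^ (-σ) *
        (if n = 0 then 0 else ‖vc A n‖ ^ (-((Fintype.card ι : ℝ) * σ))) := by
    intro n
    split_ifs with hn
    · simp
    · have hv : 0 < ‖vc A n‖ := by
        rw [norm_pos_iff]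
        exact fun h => hn (vc_inj A hA n h)
      have hx : 0 < t ^ ((2 : ℝ) / Fintype.card ι) * ‖vc A n‖ ^ 2 := by positivity
      have h1 := rpow_le_exp ((Fintype.card ι : ℝ) * σ / 2) _ (by positivity) hx
      refine h1.trans (le_of_eq ?_)
      unfold C3
      rw [mul_assoc]
      congr 1
      rw [Real.mul_rpow (by positivity) (by positivity), ← Real.rpow_mul ht.le,
        ← Real.rpow_natCast ‖vc A n‖ 2, ← Real.rpow_mul hv.le]
      congr 1
      · congr 1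
        field_simp
      · congr 1
        push_cast
        ring
  refine Summable.tsum_le_tsum hle ?_ hs
  refine Summable.of_nonneg_of_le (fun n => ?_) hle hs
  split_ifs
  · exact le_rfl
  · positivity

end Pool.Agent.H61.MV
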