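import Pool.Agent.H61.MV.Ep

/-!
# Integrals of products of theta functions
-/

set_option autoImplicit false

open MeasureTheory Set Filter Module
open scoped Matrix RealInnerProductSpace ENNReal

namespace Pool.Agent.H61.MV

variable {ι : Type} [Fintype ι] [DecidableEq ι]

lemma int_rpow (a : ℝ) (ha : a < -1) :
    IntegrableOn (fun t : ℝ => t ^ a) (Ioi 1) ∧ ∫ t in Ioi (1 : ℝ), t ^ a = 1 / (-1 - a) := by
  refine ⟨integrableOn_Ioi_rpow_of_lt ha zero_lt_one, ?_⟩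
  rw [integral_Ioi_rpow_of_lt ha zero_lt_one, Real.one_rpow, neg_div, ← div_neg]
  congr 1
  ring

lemma gt_meas (A : Matrix ι ι ℝ) (hA : A.det ≠ 0) (β : ℝ) (hβ : 0 < β) :
    AEStronglyMeasurable (fun t => gt A (β * t)) (volume.restrict (Ioi 1)) := by
  have h : AntitoneOn (fun t => gt A (β * t)) (Ioi 1) := by
    intro t ht t' ht' h
    have h1 : (0 : ℝ) < t := lt_trans one_pos ht
    have h2 : (0 : ℝ) < t' := lt_trans one_pos ht'
    exact gt_anti A hA (mul_pos hβ h1) (mul_pos hβ h2) (mul_le_mul_of_nonneg_left h hβ.le)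
  exact (aemeasurable_restrict_of_antitoneOn measurableSet_Ioi h).aestronglyMeasurable

lemma rpow_meas (a : ℝ) :
    AEStronglyMeasurable (fun t : ℝ => t ^ a) (volume.restrict (Ioi 1)) := by
  refine ContinuousOn.aestronglyMeasurable ?_ measurableSet_Ioi
  intro t ht
  exact (Real.continuousAt_rpow_const t a (Or.inl (lt_trans one_pos ht).ne')).continuousWithinAt

theorem I1 [Nonempty ι] (κ : ℝ) (hκ : 0 < κ) (A : Matrix ι ι ℝ) (hA : A.det ≠ 0) (β : ℝ)
    (hβ : 0 < β) :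
    IntegrableOn (fun t => gt A (β * t) * t ^ (κ / 4)) (Ioi 1) ∧
    ∫ t in Ioi (1 : ℝ), gt A (β * t) * t ^ (κ / 4) ≤
      C3 (Fintype.card ι) (1 + κ) * (4 / (3 * κ)) * (β ^ (-(1 + κ)) * Ep (1 + κ) A) := by
  have hr := int_rpow (-(1 + κ) + κ / 4) (by linarith)
  have hle : ∀ t ∈ Ioi (1 : ℝ), gt A (β * t) * t ^ (κ / 4) ≤
      C3 (Fintype.card ι) (1 + κ) * (β ^ (-(1 + κ)) * Ep (1 + κ) A) *
        t ^ (-(1 + κ) + κ / 4) := by
    intro t ht
    have h0 : (0 : ℝ) < t := lt_trans one_pos ht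
    have h1 := gt_B3 (1 + κ) (by linarith) A hA (β * t) (mul_pos hβ h0)
    rw [Real.mul_rpow hβ.le h0.le] at h1
    have h2 := mul_le_mul_of_nonneg_right h1 (Real.rpow_nonneg h0.le (κ / 4))
    refine h2.trans (le_of_eq ?_)
    rw [Real.rpow_add h0]
    ring
  have hnn : ∀ t ∈ Ioi (1 : ℝ), 0 ≤ gt A (β * t) * t ^ (κ / 4) := by
    intro t ht
    have h0 : (0 : ℝ) < t := lt_trans one_pos ht
    exact mul_nonneg (gt_nonneg A hA _ (mul_pos hβ h0)) (Real.rpow_nonneg h0.le _)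
  have hI : IntegrableOn (fun t => gt A (β * t) * t ^ (κ / 4)) (Ioi 1) := by
    refine Integrable.mono' (hr.1.const_mul (C3 (Fintype.card ι) (1 + κ) *
      (β ^ (-(1 + κ)) * Ep (1 + κ) A))) ((gt_meas A hA β hβ).mul (rpow_meas _)) ?_
    refine (ae_restrict_iff' measurableSet_Ioi).mpr (Eventually.of_forall fun t ht => ?_)
    rw [Real.norm_of_nonneg (hnn t ht)]
    exact hle t ht
  refine ⟨hI, ?_⟩
  refine (setIntegral_mono_on hI (hr.1.const_mul _) measurableSet_Ioi hle).trans ?_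
  rw [integral_const_mul, hr.2]
  have e : 1 / (-1 - (-(1 + κ) + κ / 4)) = 4 / (3 * κ) := by
    have e0 : -1 - (-(1 + κ) + κ / 4) = 3 * κ / 4 := by ring
    rw [e0]
    field_simp
  rw [e]
  exact le_of_eq (by ring)

/-- the quantity `1 / c + al` -/
noncomputable def xx (A : Matrix ι ι ℝ) : ℝ := |A.det|⁻¹ + al A

lemma xx_nonneg (A : Matrix ι ι ℝ) : 0 ≤ xx A := by
  have := al_nonneg A
  unfold xx
  positivity

lemma gt_B1' [Nonempty ι] (hP : Poi) (A : Matrix ι ι ℝ) (hA : A.det ≠ 0) (β t : ℝ) (hβ : 0 < β)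
    (hβ1 : β ≤ 1) (ht : 1 ≤ t) :
    gt A (β * t) ≤ Ct (Fintype.card ι) * (β⁻¹ * t ^ (-(1 / 2 : ℝ)) * xx A) := by
  have h0 : (0 : ℝ) < t := lt_of_lt_of_le one_pos ht
  refine (gt_B1 hP A hA (β * t) (mul_pos hβ h0)).trans ?_
  refine mul_le_mul_of_nonneg_left ?_ (Ct_pos _).le
  have h1 : (β * t)⁻¹ / |A.det| ≤ β⁻¹ * t ^ (-(1 / 2 : ℝ)) * |A.det|⁻¹ := by
    rw [mul_inv, div_eq_mul_inv]
    refine mul_le_mul_of_nonneg_right ?_ (by positivity)
    refine mul_le_mul_of_nonneg_left ?_ (by positivity)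
    rw [← Real.rpow_neg_one]
    exact Real.rpow_le_rpow_of_exponent_le ht (by norm_num)
  have h2 : (β * t) ^ (-(1 / 2 : ℝ)) * al A ≤ β⁻¹ * t ^ (-(1 / 2 : ℝ)) * al A := by
    refine mul_le_mul_of_nonneg_right ?_ (al_nonneg A)
    rw [Real.mul_rpow hβ.le h0.le]
    refine mul_le_mul_of_nonneg_right ?_ (by positivity)
    rw [← Real.rpow_neg_one]
    exact Real.rpow_le_rpow_of_exponent_ge hβ hβ1 (by norm_num)
  unfold xx
  rw [mul_add]
  exact add_le_add h1 h2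

/-- the constant in `I2` -/
noncomputable def C2 (m : ℕ) (κ : ℝ) : ℝ := Ct m * ((1 + Ct m) * C3 m (1 + κ)) * (4 / κ)

theorem I2 [Nonempty ι] (hP : Poi) (κ : ℝ) (hκ : 0 < κ) (P Q : Matrix ι ι ℝ) (hPd : P.det ≠ 0)
    (hQ : Q.det ≠ 0) (β : ℝ) (hβ : 0 < β) (hβ1 : β ≤ 1) :
    IntegrableOn (fun t => gt P (β * t) * gt Q (β * t) * t ^ (κ / 4)) (Ioi 1) ∧
    ∫ t in Ioi (1 : ℝ), gt P (β * t) * gt Q (β * t) * t ^ (κ / 4) ≤
      C2 (Fintype.card ι) κ * (β ^ (-(2 + κ)) *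
        (xx P * (xx Q ^ (1 / (1 + κ)) * Ep (1 + κ) Q ^ (1 - 1 / (1 + κ))))) := by
  set m := Fintype.card ι with hm
  set σ := 1 + κ with hσ
  have hσ1 : 1 < σ := by linarith
  have hs0 : 0 < 1 / σ := by positivity
  have hs1 : 1 / σ ≤ 1 := by
    rw [div_le_one (by linarith)]
    exact hσ1.le
  have hCt := Ct_pos m
  have hC3 := one_le_C3 m σ
  have hE := Ep_nonneg σ Q
  have hxP := xx_nonneg P
  have hxQ := xx_nonneg Q
  set δ := 3 * κ / 4 - κ / (2 * σ) with hδ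
  have hδ1 : κ / 4 ≤ δ := by
    rw [hδ]
    have : κ / (2 * σ) ≤ κ / 2 := by
      refine div_le_div_of_nonneg_left hκ.le (by norm_num) ?_
      linarith
    linarith
  have hr := int_rpow (-1 - δ) (by linarith)
  set K := Ct m * ((1 + Ct m) * C3 m σ) * (β ^ (-(2 + κ)) *
        (xx P * (xx Q ^ (1 / σ) * Ep σ Q ^ (1 - 1 / σ)))) with hK
  have hle : ∀ t ∈ Ioi (1 : ℝ), gt P (β * t) * gt Q (β * t) * t ^ (κ / 4) ≤
      K * t ^ (-1 - δ) := by
    intro t ht
    have ht1 : (1 : ℝ) ≤ t := le_of_lt ht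
    have h0 : (0 : ℝ) < t := lt_trans one_pos ht
    have hbt := mul_pos hβ h0
    have h1 := gt_B1' hP P hPd β t hβ hβ1 ht1
    have h2 := gt_B1' hP Q hQ β t hβ hβ1 ht1
    have h3 := gt_B3 σ hσ1 Q hQ (β * t) hbt
    have hgQ := gt_nonneg Q hQ (β * t) hbt
    have hgP := gt_nonneg P hPd (β * t) hbt
    have h4 : gt Q (β * t) ≤ (Ct m * (β⁻¹ * t ^ (-(1 / 2 : ℝ)) * xx Q)) ^ (1 / σ) *
        (C3 m σ * ((β * t) ^ (-σ) * Ep σ Q)) ^ (1 - 1 / σ) := by
      have h5 : gt Q (β * t) = gt Q (β * t) ^ (1 / σ) * gt Q (β * t) ^ (1 - 1 / σ) := by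
        rcases hgQ.eq_or_lt with h | h
        · rw [← h, Real.zero_rpow hs0.ne', zero_mul]
        · rw [← Real.rpow_add h]
          simp
      rw [h5]
      exact mul_le_mul (Real.rpow_le_rpow hgQ h2 hs0.le) (Real.rpow_le_rpow hgQ h3 (by linarith))
        (by positivity) (by positivity)
    have h6 : (Ct m * (β⁻¹ * t ^ (-(1 / 2 : ℝ)) * xx Q)) ^ (1 / σ) ≤
        (1 + Ct m) * (β⁻¹ * (t ^ (-(1 / (2 * σ))) * xx Q ^ (1 / σ))) := by
      rw [Real.mul_rpow hCt.le (by positivity), Real.mul_rpow (by positivity) hxQ,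
        Real.mul_rpow (by positivity) (by positivity), ← Real.rpow_mul h0.le]
      have e1 : -(1 / 2 : ℝ) * (1 / σ) = -(1 / (2 * σ)) := by
        field_simp
      rw [e1]
      have h7 : Ct m ^ (1 / σ) ≤ 1 + Ct m := by
        rcases le_total (Ct m) 1 with h | h
        · have := Real.rpow_le_one hCt.le h hs0.le
          linarith
        · have := Real.rpow_le_rpow_of_exponent_le h hs1
          rw [Real.rpow_one] at this
          linarith
      have h8 : β⁻¹ ^ (1 / σ) ≤ β⁻¹ := by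
        have := Real.rpow_le_rpow_of_exponent_le ((one_le_inv₀ hβ).mpr hβ1) hs1
        rwa [Real.rpow_one] at this
      have h9 : 0 ≤ t ^ (-(1 / (2 * σ))) * xx Q ^ (1 / σ) := by positivity
      refine mul_le_mul h7 ?_ (by positivity) (by positivity)
      rw [mul_assoc]
      exact mul_le_mul_of_nonneg_right h8 h9
    have h10 : (C3 m σ * ((β * t) ^ (-σ) * Ep σ Q)) ^ (1 - 1 / σ) ≤
        C3 m σ * (β ^ (-κ) * (t ^ (-κ) * Ep σ Q ^ (1 - 1 / σ))) := by
      rw [Real.mul_rpow (by positivity) (by positivity), Real.mul_rpow (by positivity) hE,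
        ← Real.rpow_mul hbt.le, Real.mul_rpow hβ.le h0.le]
      have e1 : -σ * (1 - 1 / σ) = -κ := by
        field_simp
        rw [hσ]
        ring
      rw [e1]
      have h7 : C3 m σ ^ (1 - 1 / σ) ≤ C3 m σ := by
        have := Real.rpow_le_rpow_of_exponent_le hC3 (by linarith : 1 - 1 / σ ≤ 1)
        rwa [Real.rpow_one] at this
      have e2 : β ^ (-κ) * t ^ (-κ) * Ep σ Q ^ (1 - 1 / σ) =
          β ^ (-κ) * (t ^ (-κ) * Ep σ Q ^ (1 - 1 / σ)) := by ring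
      rw [e2]
      exact mul_le_mul_of_nonneg_right h7 (by positivity)
    have h11 : gt P (β * t) * gt Q (β * t) ≤
        (Ct m * (β⁻¹ * t ^ (-(1 / 2 : ℝ)) * xx P)) *
        ((1 + Ct m) * (β⁻¹ * (t ^ (-(1 / (2 * σ))) * xx Q ^ (1 / σ))) *
          (C3 m σ * (β ^ (-κ) * (t ^ (-κ) * Ep σ Q ^ (1 - 1 / σ))))) := by
      refine mul_le_mul h1 (h4.trans ?_) hgQ (by positivity)
      exact mul_le_mul h6 h10 (by positivity) (by positivity)
    have h12 := mul_le_mul_of_nonneg_right h11 (Real.rpow_nonneg h0.le (κ / 4))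
    refine h12.trans (le_of_eq ?_)
    have e3 : t ^ (-1 - δ) = t ^ (-(1 / 2 : ℝ)) * t ^ (-(1 / (2 * σ))) * t ^ (-κ) *
        t ^ (κ / 4) := by
      rw [← Real.rpow_add h0, ← Real.rpow_add h0, ← Real.rpow_add h0]
      congr 1
      rw [hδ]
      have : κ = σ - 1 := by rw [hσ]; ring
      rw [this]
      field_simp
      ring
    have e4 : β ^ (-(2 + κ)) = β⁻¹ * β⁻¹ * β ^ (-κ) := by
      rw [← Real.rpow_neg_one, ← Real.rpow_add hβ, ← Real.rpow_add hβ]
      congr 1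
      ring
    rw [hK, e3, e4]
    ring
  have hnn : ∀ t ∈ Ioi (1 : ℝ), 0 ≤ gt P (β * t) * gt Q (β * t) * t ^ (κ / 4) := by
    intro t ht
    have h0 : (0 : ℝ) < t := lt_trans one_pos ht
    exact mul_nonneg (mul_nonneg (gt_nonneg P hPd _ (mul_pos hβ h0))
      (gt_nonneg Q hQ _ (mul_pos hβ h0))) (Real.rpow_nonneg h0.le _)
  have hI : IntegrableOn (fun t => gt P (β * t) * gt Q (β * t) * t ^ (κ / 4)) (Ioi 1) := by
    refine Integrable.mono' (hr.1.const_mul K)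
      (((gt_meas P hPd β hβ).mul (gt_meas Q hQ β hβ)).mul (rpow_meas _)) ?_
    refine (ae_restrict_iff' measurableSet_Ioi).mpr (Eventually.of_forall fun t ht => ?_)
    rw [Real.norm_of_nonneg (hnn t ht)]
    exact hle t ht
  refine ⟨hI, ?_⟩
  refine (setIntegral_mono_on hI (hr.1.const_mul _) measurableSet_Ioi hle).trans ?_
  rw [integral_const_mul, hr.2]
  have e : 1 / (-1 - (-1 - δ)) ≤ 4 / κ := by
    have e1 : -1 - (-1 - δ) = δ := by ring
    rw [e1, div_le_div_iff₀ (by linarith) hκ]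
    linarith
  have hK0 : 0 ≤ K := by positivity
  refine (mul_le_mul_of_nonneg_left e hK0).trans (le_of_eq ?_)
  rw [hK]
  unfold C2
  ring

end Pool.Agent.H61.MV
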