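import Pool.Agent.H61.MV.Int

/-!
# The mean value inequality for a pair of lattices
-/

set_option autoImplicit false

open MeasureTheory Set Filter Module
open scoped Matrix RealInnerProductSpace ENNReal

namespace Pool.Agent.H61.MV

variable {ι : Type} [Fintype ι] [DecidableEq ι]

/-- the majorant; `A` is the matrix of a lattice of covolume `1`, `B` of a lattice of covolume
`1 / N` -/
noncomputable def Zz (κ N : ℝ) (A B : Matrix ι ι ℝ) : ℝ :=
  N * (1 + Ep (1 + κ) A + Ep (1 + κ) (dm A)) + Ep (1 + κ) B +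
    N ^ (2 * (1 + κ)) * Ep (1 + κ) (dm B)

lemma l1_pow_le [Nonempty ι] (σ : ℝ) (hσ : 1 < σ) (A : Matrix ι ι ℝ) (hA : A.det ≠ 0) :
    l1 A ^ (-((Fintype.card ι : ℝ) / 2)) ≤ Ep σ A ^ (1 / (2 * σ)) := by
  have h := l1_rpow_le σ hσ A hA
  have hl := l1_pos A hA
  have h1 := Real.rpow_le_rpow (by positivity) h (by positivity : (0 : ℝ) ≤ 1 / (2 * σ))
  rw [← Real.rpow_mul hl.le] at h1
  refine le_trans (le_of_eq ?_) h1
  congr 1
  field_simp

/-- the real inequality -/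
lemma real_ineq (κ N E1 E2 W1 W2 x y u v : ℝ) (hκ : 0 < κ) (hN : 1 ≤ N) (hE1 : 0 ≤ E1)
    (hE2 : 0 ≤ E2) (hW1 : 0 ≤ W1) (hW2 : 0 ≤ W2) (hx : 0 ≤ x) (hy : 0 ≤ y) (hu : 0 ≤ u)
    (hv : 0 ≤ v) (hx1 : x ≤ E1 ^ (1 / (2 * (1 + κ)))) (hy1 : y ≤ E2 ^ (1 / (2 * (1 + κ))))
    (hu1 : u ≤ W1 ^ (1 / (2 * (1 + κ)))) (hv1 : v ≤ W2 ^ (1 / (2 * (1 + κ)))) (E : ℝ)
    (hE : 0 ≤ E) (hEE : E ≤ E1 ∨ E ≤ E2) :
    (N + (u + N * v)) * ((1 + (x + y)) ^ (1 / (1 + κ)) * E ^ (1 - 1 / (1 + κ))) ≤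
      9 * (N * (1 + E1 + E2) + W1 + N ^ (2 * (1 + κ)) * W2) := by
  set σ := 1 + κ with hσ
  have hσ1 : 1 < σ := by linarith
  set ZL := 1 + E1 + E2 with hZL
  have hZL1 : 1 ≤ ZL := by linarith
  set Z := N * ZL + W1 + N ^ (2 * σ) * W2 with hZ
  have hNp : 0 ≤ N ^ (2 * σ) := by positivity
  have hNW : 0 ≤ N ^ (2 * σ) * W2 := mul_nonneg hNp hW2
  have hZ1 : 1 ≤ Z := by nlinarith
  have hZLZ : ZL ≤ Z := by nlinarith
  have hp : (0 : ℝ) < 1 / (2 * σ) := by positivity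
  have hs0 : (0 : ℝ) < 1 / σ := by positivity
  have hs1 : 1 / σ ≤ 1 := by
    rw [div_le_one (by linarith)]
    exact hσ1.le
  have hx2 : x ≤ ZL ^ (1 / (2 * σ)) :=
    hx1.trans (Real.rpow_le_rpow hE1 (by linarith) hp.le)
  have hy2 : y ≤ ZL ^ (1 / (2 * σ)) :=
    hy1.trans (Real.rpow_le_rpow hE2 (by linarith) hp.le)
  have h1 : 1 ≤ ZL ^ (1 / (2 * σ)) := Real.one_le_rpow hZL1 hp.le
  have h2 : (1 + (x + y)) ^ (1 / σ) ≤ 3 * ZL ^ (1 / (2 * σ) * (1 / σ)) := by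
    have h3 : 1 + (x + y) ≤ 3 * ZL ^ (1 / (2 * σ)) := by linarith
    have h4 := Real.rpow_le_rpow (by positivity) h3 hs0.le
    rw [Real.mul_rpow (by norm_num) (by positivity), ← Real.rpow_mul (by linarith)] at h4
    have h5 : (3 : ℝ) ^ (1 / σ) ≤ 3 := by
      have := Real.rpow_le_rpow_of_exponent_le (by norm_num : (1 : ℝ) ≤ 3) hs1
      rwa [Real.rpow_one] at this
    exact h4.trans (mul_le_mul_of_nonneg_right h5 (by positivity))
  have h6 : E ^ (1 - 1 / σ) ≤ ZL ^ (1 - 1 / σ) := by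
    refine Real.rpow_le_rpow hE ?_ (by linarith)
    rcases hEE with h | h <;> linarith
  set e := 1 / (2 * σ) * (1 / σ) + (1 - 1 / σ) with he
  have h7 : (1 + (x + y)) ^ (1 / σ) * E ^ (1 - 1 / σ) ≤ 3 * ZL ^ e := by
    have h8 := mul_le_mul h2 h6 (by positivity) (by positivity)
    refine h8.trans (le_of_eq ?_)
    rw [he, Real.rpow_add (by linarith)]
    ring
  have he1 : 1 / (2 * σ) + e ≤ 1 := by
    rw [he]
    have h9 : 1 / (2 * σ) = 1 / σ / 2 := by field_simp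
    rw [h9]
    nlinarith
  have hZLe : ZL ^ e ≤ ZL := by
    have := Real.rpow_le_rpow_of_exponent_le hZL1 (by linarith : e ≤ 1)
    rwa [Real.rpow_one] at this
  have he0 : 0 ≤ e := by
    rw [he]
    have : 0 ≤ 1 / (2 * σ) * (1 / σ) := by positivity
    linarith
  have hu2 : u ≤ Z ^ (1 / (2 * σ)) := by
    refine hu1.trans (Real.rpow_le_rpow hW1 ?_ hp.le)
    nlinarith
  have hv2 : N * v ≤ Z ^ (1 / (2 * σ)) := by
    have h10 : N * v ≤ (N ^ (2 * σ) * W2) ^ (1 / (2 * σ)) := by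
      rw [Real.mul_rpow hNp hW2, ← Real.rpow_mul (by linarith)]
      have e1 : 2 * σ * (1 / (2 * σ)) = 1 := by field_simp
      rw [e1, Real.rpow_one]
      exact mul_le_mul_of_nonneg_left hv1 (by linarith)
    refine h10.trans (Real.rpow_le_rpow hNW ?_ hp.le)
    nlinarith
  have h11 : N * (3 * ZL ^ e) ≤ 3 * Z := by
    have : N * ZL ^ e ≤ N * ZL := mul_le_mul_of_nonneg_left hZLe (by linarith)
    nlinarith
  have h12 : (u + N * v) * (3 * ZL ^ e) ≤ 6 * Z := by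
    have h13 : ZL ^ e ≤ Z ^ e := Real.rpow_le_rpow (by linarith) hZLZ he0
    have h14 : Z ^ (1 / (2 * σ)) * Z ^ e ≤ Z := by
      rw [← Real.rpow_add (by linarith)]
      have := Real.rpow_le_rpow_of_exponent_le hZ1 he1
      rwa [Real.rpow_one] at this
    have h15 : (u + N * v) * ZL ^ e ≤ (2 * Z ^ (1 / (2 * σ))) * Z ^ e :=
      mul_le_mul (by linarith) h13 (by positivity) (by positivity)
    nlinarith
  have h16 : (N + (u + N * v)) * ((1 + (x + y)) ^ (1 / σ) * E ^ (1 - 1 / σ)) ≤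
      (N + (u + N * v)) * (3 * ZL ^ e) :=
    mul_le_mul_of_nonneg_left h7 (by positivity)
  refine h16.trans ?_
  rw [add_mul]
  linarith

/-- the constant in the mean value inequality -/
noncomputable def CK (m : ℕ) (κ : ℝ) : ℝ := C3 m (1 + κ) * (4 / (3 * κ)) + 9 * C2 m κ

lemma C2_nonneg (m : ℕ) (κ : ℝ) (hκ : 0 < κ) : 0 ≤ C2 m κ := by
  unfold C2
  have h1 := Ct_pos m
  have h2 := one_le_C3 m (1 + κ)
  have : 0 ≤ C3 m (1 + κ) := by linarith
  positivity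

/-- (MVK) the mean value inequality for a pair of lattices of covolumes `1` and `1 / N` -/
theorem MVK [Nonempty ι] (hP : Poi) (κ : ℝ) (hκ : 0 < κ) (N : ℝ) (hN : 1 ≤ N)
    (A B : Matrix ι ι ℝ) (hA : |A.det| = 1) (hB : |B.det| = 1 / N) (β : ℝ) (hβ : 0 < β)
    (hβ1 : β ≤ 1) :
    (IntegrableOn (fun t => gt B (β * t) * (1 + gt A (β * t)) * t ^ (κ / 4)) (Ioi 1) ∧
      ∫ t in Ioi (1 : ℝ), gt B (β * t) * (1 + gt A (β * t)) * t ^ (κ / 4) ≤
        CK (Fintype.card ι) κ * (β ^ (-(2 + κ)) * Zz κ N A B)) ∧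
    (IntegrableOn (fun t => gt (dm A) (β * t) * (1 + gt (dm B) (β * t)) * t ^ (κ / 4)) (Ioi 1) ∧
      N * ∫ t in Ioi (1 : ℝ), gt (dm A) (β * t) * (1 + gt (dm B) (β * t)) * t ^ (κ / 4) ≤
        CK (Fintype.card ι) κ * (β ^ (-(2 + κ)) * Zz κ N A B)) := by
  have hN0 : 0 < N := by linarith
  have hA0 : A.det ≠ 0 := by
    intro h
    rw [h, abs_zero] at hA
    exact zero_ne_one hA
  have hB0 : B.det ≠ 0 := by
    intro h
    rw [h, abs_zero] at hB
    have : 0 < 1 / N := by positivity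
    linarith
  have hdA := det_dm_ne hA0
  have hdB := det_dm_ne hB0
  have hcA : |(dm A).det| = 1 := by rw [det_dm, abs_inv, hA, inv_one]
  have hcB : |(dm B).det| = N := by rw [det_dm, abs_inv, hB, one_div, inv_inv]
  have hσ1 : (1 : ℝ) < 1 + κ := by linarith
  set p : ℝ := -((Fintype.card ι : ℝ) / 2) with hp
  set x := l1 A ^ p with hx
  set y := l1 (dm A) ^ p with hy
  set u := l1 B ^ p with hu
  set v := l1 (dm B) ^ p with hv
  have hx0 : 0 ≤ x := Real.rpow_nonneg (l1_nonneg _) _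
  have hy0 : 0 ≤ y := Real.rpow_nonneg (l1_nonneg _) _
  have hu0 : 0 ≤ u := Real.rpow_nonneg (l1_nonneg _) _
  have hv0 : 0 ≤ v := Real.rpow_nonneg (l1_nonneg _) _
  have exA : xx A = 1 + (x + y) := by
    unfold xx al
    rw [hA]
    simp [hx, hy, hp]
  have exdA : xx (dm A) = 1 + (x + y) := by
    unfold xx al
    rw [hcA, dm_dm hA0]
    simp only [inv_one, div_one]
    rw [hx, hy, hp, add_comm (l1 (dm A) ^ _)]
  have exB : xx B = N + (u + N * v) := by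
    unfold xx al
    rw [hB, one_div, inv_inv, div_inv_eq_mul, mul_comm (l1 (dm B) ^ _)]
  have exdB : xx (dm B) = (1 + (u + N * v)) / N := by
    unfold xx al
    rw [hcB, dm_dm hB0, hu, hv, hp]
    field_simp
    ring
  have hr := fun (E : ℝ) (hE : 0 ≤ E)
    (hEE : E ≤ Ep (1 + κ) A ∨ E ≤ Ep (1 + κ) (dm A)) =>
    real_ineq κ N (Ep (1 + κ) A) (Ep (1 + κ) (dm A)) (Ep (1 + κ) B) (Ep (1 + κ) (dm B))
      x y u v hκ hN (Ep_nonneg _ _) (Ep_nonneg _ _) (Ep_nonneg _ _) (Ep_nonneg _ _)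
      hx0 hy0 hu0 hv0 (l1_pow_le _ hσ1 A hA0) (l1_pow_le _ hσ1 _ hdA) (l1_pow_le _ hσ1 B hB0)
      (l1_pow_le _ hσ1 _ hdB) E hE hEE
  have hZ : Zz κ N A B = N * (1 + Ep (1 + κ) A + Ep (1 + κ) (dm A)) + Ep (1 + κ) B +
    N ^ (2 * (1 + κ)) * Ep (1 + κ) (dm B) := rfl
  have hNp : 1 ≤ N ^ (2 * (1 + κ)) := Real.one_le_rpow hN (by linarith)
  have hE1 := Ep_nonneg (1 + κ) A
  have hE2 := Ep_nonneg (1 + κ) (dm A)
  have hE3 := Ep_nonneg (1 + κ) B
  have hE4 := Ep_nonneg (1 + κ) (dm B)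
  have hbp : (1 : ℝ) ≤ β ^ (-(2 + κ)) := Real.one_le_rpow_of_pos_of_le_one_of_nonpos hβ hβ1
    (by linarith)
  have hb1 : β ^ (-(1 + κ)) ≤ β ^ (-(2 + κ)) :=
    Real.rpow_le_rpow_of_exponent_ge hβ hβ1 (by linarith)
  have hb0 : 0 ≤ β ^ (-(1 + κ)) := by positivity
  have hC2 := C2_nonneg (Fintype.card ι) κ hκ
  have hC3 := one_le_C3 (Fintype.card ι) (1 + κ)
  have hNE : 0 ≤ N ^ (2 * (1 + κ)) * Ep (1 + κ) (dm B) := by positivity
  constructor
  · have i1 := I1 κ hκ B hB0 β hβ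
    have i2 := I2 hP κ hκ B A hB0 hA0 β hβ hβ1
    have e : (fun t => gt B (β * t) * (1 + gt A (β * t)) * t ^ (κ / 4)) =
        (fun t => gt B (β * t) * t ^ (κ / 4) + gt B (β * t) * gt A (β * t) * t ^ (κ / 4)) := by
      ext t
      ring
    rw [e]
    refine ⟨i1.1.add i2.1, ?_⟩
    rw [integral_add i1.1 i2.1]
    rw [exB, exA] at i2
    have h1 := hr (Ep (1 + κ) A) hE1 (Or.inl le_rfl)
    have h2 : β ^ (-(1 + κ)) * Ep (1 + κ) B ≤ β ^ (-(2 + κ)) * Zz κ N A B := by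
      refine mul_le_mul hb1 ?_ hE3 (by positivity)
      rw [hZ]
      nlinarith
    have h3 : C3 (Fintype.card ι) (1 + κ) * (4 / (3 * κ)) * (β ^ (-(1 + κ)) * Ep (1 + κ) B) ≤
        C3 (Fintype.card ι) (1 + κ) * (4 / (3 * κ)) * (β ^ (-(2 + κ)) * Zz κ N A B) :=
      mul_le_mul_of_nonneg_left h2 (by positivity)
    have h4 : C2 (Fintype.card ι) κ * (β ^ (-(2 + κ)) *
        ((N + (u + N * v)) * ((1 + (x + y)) ^ (1 / (1 + κ)) *
          Ep (1 + κ) A ^ (1 - 1 / (1 + κ))))) ≤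
        C2 (Fintype.card ι) κ * (β ^ (-(2 + κ)) * (9 * Zz κ N A B)) := by
      refine mul_le_mul_of_nonneg_left (mul_le_mul_of_nonneg_left ?_ (by positivity)) hC2
      rw [hZ]
      exact h1
    have h5 := add_le_add (i1.2.trans h3) (i2.2.trans h4)
    refine h5.trans (le_of_eq ?_)
    unfold CK
    ring
  · have i1 := I1 κ hκ (dm A) hdA β hβ
    have i2 := I2 hP κ hκ (dm B) (dm A) hdB hdA β hβ hβ1
    have e : (fun t => gt (dm A) (β * t) * (1 + gt (dm B) (β * t)) * t ^ (κ / 4)) =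
        (fun t => gt (dm A) (β * t) * t ^ (κ / 4) +
          gt (dm B) (β * t) * gt (dm A) (β * t) * t ^ (κ / 4)) := by
      ext t
      ring
    rw [e]
    refine ⟨i1.1.add i2.1, ?_⟩
    rw [integral_add i1.1 i2.1, mul_add]
    rw [exdB, exdA] at i2
    have h1 := hr (Ep (1 + κ) (dm A)) hE2 (Or.inr le_rfl)
    have h2 : β ^ (-(1 + κ)) * (N * Ep (1 + κ) (dm A)) ≤ β ^ (-(2 + κ)) * Zz κ N A B := by
      refine mul_le_mul hb1 ?_ (by positivity) (by positivity)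
      rw [hZ]
      nlinarith
    have h3 : N * (C3 (Fintype.card ι) (1 + κ) * (4 / (3 * κ)) *
          (β ^ (-(1 + κ)) * Ep (1 + κ) (dm A))) ≤
        C3 (Fintype.card ι) (1 + κ) * (4 / (3 * κ)) * (β ^ (-(2 + κ)) * Zz κ N A B) := by
      refine le_trans (le_of_eq ?_) (mul_le_mul_of_nonneg_left h2
        (by positivity : 0 ≤ C3 (Fintype.card ι) (1 + κ) * (4 / (3 * κ))))
      ring
    have hF : 0 ≤ (1 + (x + y)) ^ (1 / (1 + κ)) * Ep (1 + κ) (dm A) ^ (1 - 1 / (1 + κ)) := by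
      positivity
    have h4 : N * (C2 (Fintype.card ι) κ * (β ^ (-(2 + κ)) *
        ((1 + (u + N * v)) / N * ((1 + (x + y)) ^ (1 / (1 + κ)) *
          Ep (1 + κ) (dm A) ^ (1 - 1 / (1 + κ)))))) ≤
        C2 (Fintype.card ι) κ * (β ^ (-(2 + κ)) * (9 * Zz κ N A B)) := by
      have e1 : N * (C2 (Fintype.card ι) κ * (β ^ (-(2 + κ)) *
        ((1 + (u + N * v)) / N * ((1 + (x + y)) ^ (1 / (1 + κ)) *
          Ep (1 + κ) (dm A) ^ (1 - 1 / (1 + κ)))))) =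
          C2 (Fintype.card ι) κ * (β ^ (-(2 + κ)) *
        ((1 + (u + N * v)) * ((1 + (x + y)) ^ (1 / (1 + κ)) *
          Ep (1 + κ) (dm A) ^ (1 - 1 / (1 + κ))))) := by
        field_simp
      rw [e1]
      refine mul_le_mul_of_nonneg_left (mul_le_mul_of_nonneg_left ?_ (by positivity)) hC2
      rw [hZ]
      refine le_trans ?_ h1
      exact mul_le_mul_of_nonneg_right (by linarith) hF
    have i1' := mul_le_mul_of_nonneg_left i1.2 hN0.le
    have i2' := mul_le_mul_of_nonneg_left i2.2 hN0.le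
    have h5 := add_le_add (i1'.trans h3) (i2'.trans h4)
    refine h5.trans (le_of_eq ?_)
    unfold CK
    ring

end Pool.Agent.H61.MV
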