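import Pool.Agent.H61.MV.Basic

/-!
# Packing and doubling
-/

set_option autoImplicit false

open MeasureTheory Set Filter Module
open scoped Matrix RealInnerProductSpace ENNReal

namespace Pool.Agent.H61.MV

/-- packing in a Euclidean space -/
theorem pack {E : Type} [NormedAddCommGroup E] [InnerProductSpace ℝ E] [FiniteDimensional ℝ E]
    (S : Finset E) (δ r : ℝ) (hδ : 0 < δ) (hr : 0 ≤ r) (h1 : ∀ x ∈ S, ‖x‖ ≤ r)
    (h2 : ∀ x ∈ S, ∀ y ∈ S, x ≠ y → δ ≤ ‖x - y‖) :
    (S.card : ℝ) ≤ (1 + 2 * r / δ) ^ finrank ℝ E := by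
  let _ : MeasurableSpace E := borel E
  have _ : BorelSpace E := ⟨rfl⟩
  let μ : Measure E := Measure.addHaar
  have hd : ∀ x ∈ S, ∀ y ∈ S, x ≠ y → Disjoint (Metric.ball x (δ / 2)) (Metric.ball y (δ / 2)) := by
    intro x hx y hy hxy
    refine Metric.ball_disjoint_ball ?_
    rw [dist_eq_norm]
    have := h2 x hx y hy hxy
    linarith
  have hU : (⋃ x ∈ S, Metric.ball x (δ / 2)) ⊆ Metric.ball (0 : E) (r + δ / 2) := by
    intro z hz
    simp only [mem_iUnion] at hz
    obtain ⟨x, hx, hz⟩ := hz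
    rw [mem_ball_zero_iff]
    rw [mem_ball_iff_norm] at hz
    have h3 : ‖z‖ ≤ ‖z - x‖ + ‖x‖ := by
      have := norm_add_le (z - x) x
      rwa [sub_add_cancel] at this
    have := h1 x hx
    linarith
  have hm : μ (⋃ x ∈ S, Metric.ball x (δ / 2)) = ∑ x ∈ S, μ (Metric.ball x (δ / 2)) := by
    refine measure_biUnion_finset ?_ fun x _ => measurableSet_ball
    intro x hx y hy hxy
    exact hd x hx y hy hxy
  have hle := measure_mono (μ := μ) hU
  rw [hm] at hle
  have hb : ∀ x ∈ S, μ (Metric.ball x (δ / 2)) =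
      ENNReal.ofReal ((δ / 2) ^ finrank ℝ E) * μ (Metric.ball (0 : E) 1) :=
    fun x _ => Measure.addHaar_ball_of_pos μ x (by linarith)
  rw [Finset.sum_congr rfl hb, Finset.sum_const, nsmul_eq_mul,
    Measure.addHaar_ball_of_pos μ (0 : E) (by linarith : 0 < r + δ / 2), ← mul_assoc] at hle
  have h0 : μ (Metric.ball (0 : E) 1) ≠ 0 := (Metric.measure_ball_pos μ _ one_pos).ne'
  have h3 : μ (Metric.ball (0 : E) 1) ≠ ⊤ := measure_ball_lt_top.ne
  have h4 := (ENNReal.mul_le_mul_iff_left h0 h3).mp hle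
  have h5 : (S.card : ℝ) * (δ / 2) ^ finrank ℝ E ≤ (r + δ / 2) ^ finrank ℝ E := by
    have h6 : (S.card : ℝ≥0∞) * ENNReal.ofReal ((δ / 2) ^ finrank ℝ E) =
        ENNReal.ofReal ((S.card : ℝ) * (δ / 2) ^ finrank ℝ E) := by
      rw [ENNReal.ofReal_mul (by positivity), ENNReal.ofReal_natCast]
    rw [h6] at h4
    exact (ENNReal.ofReal_le_ofReal_iff (by positivity)).mp h4
  have h6 : (1 + 2 * r / δ) ^ finrank ℝ E = (r + δ / 2) ^ finrank ℝ E / (δ / 2) ^ finrank ℝ E := by
    rw [← div_pow]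
    congr 1
    field_simp
    ring
  rw [h6, le_div_iff₀ (by positivity)]
  exact h5

/-- a maximal separated subset -/
theorem maxsep {α : Type} [DecidableEq α] (c : α → α → Prop) (hr : ∀ x, c x x)
    (hs : ∀ x y, c x y → c y x) (F : Finset α) :
    ∃ S ⊆ F, (∀ x ∈ S, ∀ y ∈ S, x ≠ y → ¬ c x y) ∧ ∀ x ∈ F, ∃ y ∈ S, c x y := by
  classical
  induction F using Finset.induction_on with
  | empty => exact ⟨∅, by simp, by simp, by simp⟩
  | insert a F' ha ih =>
    obtain ⟨S, hS, h1, h2⟩ := ih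
    by_cases h : ∃ y ∈ S, c a y
    · refine ⟨S, hS.trans (Finset.subset_insert _ _), h1, fun x hx => ?_⟩
      rcases Finset.mem_insert.mp hx with rfl | hx
      · exact h
      · exact h2 x hx
    · refine ⟨insert a S, Finset.insert_subset_insert _ hS, ?_, ?_⟩
      · intro x hx y hy hxy hc
        rcases Finset.mem_insert.mp hx with hx1 | hx1
        · rcases Finset.mem_insert.mp hy with hy1 | hy1
          · exact hxy (hx1.trans hy1.symm)
          · exact h ⟨y, hy1, hx1 ▸ hc⟩
        · rcases Finset.mem_insert.mp hy with hy1 | hy1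
          · exact h ⟨x, hx1, hs _ _ (hy1 ▸ hc)⟩
          · exact h1 x hx1 y hy1 hxy hc
      · intro x hx
        rcases Finset.mem_insert.mp hx with rfl | hx
        · exact ⟨x, Finset.mem_insert_self _ _, hr x⟩
        · obtain ⟨y, hy, hc⟩ := h2 x hx
          exact ⟨y, Finset.mem_insert_of_mem hy, hc⟩

variable {ι : Type} [Fintype ι] [DecidableEq ι]

/-- doubling -/
theorem cnt_mul (A : Matrix ι ι ℝ) (hA : A.det ≠ 0) (r : ℝ) (hr : 0 < r) (k : ℕ) :
    (cnt A (k * r) : ℝ) ≤ (2 * k + 1) ^ Fintype.card ι * cnt A r := by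
  classical
  let F : Finset (ι → ℤ) := (fin_ball A hA (k * r)).toFinset
  have hF : ∀ n, n ∈ F ↔ ‖vc A n‖ ≤ k * r := fun n => by simp [F]
  obtain ⟨S, hS, h1, h2⟩ := maxsep (fun n n' : ι → ℤ => ‖vc A (n - n')‖ ≤ r)
    (fun x => by simp [vc_zero, hr.le])
    (fun x y h => by rwa [← neg_sub, vc_neg, norm_neg]) F
  have hinj : Function.Injective (vc A) := by
    intro n n' h
    have h3 : vc A (n - n') = 0 := by rw [vc_sub, h, sub_self]
    exact sub_eq_zero.mp (vc_inj A hA _ h3)
  have hk : (0 : ℝ) ≤ k * r := by positivity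
  have hp := pack (S.image (vc A)) r (k * r) hr hk
    (by
      intro x hx
      obtain ⟨n, hn, rfl⟩ := Finset.mem_image.mp hx
      exact (hF n).mp (hS hn))
    (by
      intro x hx y hy hxy
      obtain ⟨n, hn, rfl⟩ := Finset.mem_image.mp hx
      obtain ⟨n', hn', rfl⟩ := Finset.mem_image.mp hy
      have h3 := h1 n hn n' hn' (fun h => hxy (by rw [h]))
      rw [vc_sub] at h3
      exact (not_le.mp h3).le)
  rw [Finset.card_image_of_injective _ hinj, finrank_euclideanSpace] at hp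
  have h3 : 2 * (k * r) / r = 2 * k := by field_simp
  rw [h3] at hp
  have hb : cnt A r = (fin_ball A hA r).toFinset.card :=
    Set.ncard_eq_toFinset_card _ (fin_ball A hA r)
  have hc : F.card ≤ S.card * cnt A r := by
    rw [hb, mul_comm]
    have h4 : F ⊆ S.biUnion fun s => ((fin_ball A hA r).toFinset).image (fun l => s + l) := by
      intro n hn
      obtain ⟨s, hs, h5⟩ := h2 n hn
      refine Finset.mem_biUnion.mpr ⟨s, hs, Finset.mem_image.mpr ⟨n - s, ?_, by abel⟩⟩
      simp only [Set.Finite.mem_toFinset, Set.mem_ofPred_eq]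
      exact h5
    refine (Finset.card_le_card h4).trans ?_
    rw [mul_comm]
    refine Finset.card_biUnion_le_card_mul _ _ _ fun s _ => Finset.card_image_le
  have hFc : cnt A (k * r) = F.card := Set.ncard_eq_toFinset_card _ (fin_ball A hA (k * r))
  rw [hFc]
  have h5 : (F.card : ℝ) ≤ S.card * cnt A r := by exact_mod_cast hc
  refine h5.trans ?_
  rw [add_comm] at hp
  exact mul_le_mul_of_nonneg_right hp (Nat.cast_nonneg _)

end Pool.Agent.H61.MV
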