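import Pool.Agent.H61.MV.Theta

/-!
# The bound for the theta function of a lattice
-/

set_option autoImplicit false

open MeasureTheory Set Filter Module
open scoped Matrix RealInnerProductSpace ENNReal

namespace Pool.Agent.H61.MV

/-- Poisson summation for Gaussians -/
def Poi : Prop :=
  ∀ (ι : Type) [Fintype ι] [DecidableEq ι] (A : Matrix ι ι ℝ), A.det ≠ 0 → ∀ r : ℝ, 0 < r →
    Th A (1 / r ^ 2) = r ^ Fintype.card ι * |A.det|⁻¹ * Th (dm A) (r ^ 2)

variable {ι : Type} [Fintype ι] [DecidableEq ι]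

/-- the quantity controlling the theta function -/
noncomputable def al (A : Matrix ι ι ℝ) : ℝ :=
  l1 A ^ (-((Fintype.card ι : ℝ) / 2)) + l1 (dm A) ^ (-((Fintype.card ι : ℝ) / 2)) / |A.det|

lemma one_add_rpow (x p : ℝ) (hx : 0 ≤ x) (hp : 0 ≤ p) : (1 + x) ^ p ≤ 2 ^ p * (1 + x ^ p) := by
  rcases le_total x 1 with h | h
  · have h1 : (1 + x) ^ p ≤ 2 ^ p := Real.rpow_le_rpow (by linarith) (by linarith) hp
    have h2 : 0 ≤ x ^ p := Real.rpow_nonneg hx p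
    have h3 : (0 : ℝ) < 2 ^ p := Real.rpow_pos_of_pos (by norm_num) p
    nlinarith
  · have h1 : (1 + x) ^ p ≤ (2 * x) ^ p := Real.rpow_le_rpow (by linarith) (by linarith) hp
    rw [Real.mul_rpow (by norm_num) hx] at h1
    have h3 : (0 : ℝ) < 2 ^ p := Real.rpow_pos_of_pos (by norm_num) p
    nlinarith

lemma al_nonneg (A : Matrix ι ι ℝ) : 0 ≤ al A := by
  unfold al
  have h1 := Real.rpow_nonneg (l1_nonneg A) (-((Fintype.card ι : ℝ) / 2))
  have h2 := Real.rpow_nonneg (l1_nonneg (dm A)) (-((Fintype.card ι : ℝ) / 2))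
  positivity

lemma sqrt_one_div_sq (r : ℝ) (hr : 0 < r) : (Real.sqrt (1 / r ^ 2))⁻¹ = r := by
  rw [Real.sqrt_div zero_le_one, Real.sqrt_one, Real.sqrt_sq hr.le]
  field_simp

/-- the bound for the full theta function -/
theorem Th_bound [Nonempty ι] (hP : Poi) (A : Matrix ι ι ℝ) (hA : A.det ≠ 0) (r : ℝ)
    (hr : 0 < r) :
    Th A (1 / r ^ 2) ≤ (Cd (Fintype.card ι) * 5 ^ Fintype.card ι *
      (2 ^ ((Fintype.card ι : ℝ) / 2)) * (2 ^ ((Fintype.card ι : ℝ) / 2))) *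
      (1 + (r ^ Fintype.card ι / |A.det| + r ^ ((Fintype.card ι : ℝ) / 2) * al A)) := by
  set m := Fintype.card ι with hm
  set p : ℝ := (m : ℝ) / 2 with hp
  have hp0 : 0 ≤ p := by positivity
  have hl := l1_pos A hA
  have hl' := l1_pos (dm A) (det_dm_ne hA)
  have hd : 0 < |A.det| := abs_pos.mpr hA
  have h2p : (1 : ℝ) ≤ 2 ^ p := Real.one_le_rpow (by norm_num) hp0
  have h5 : (1 : ℝ) ≤ 5 ^ m := one_le_pow₀ (by norm_num)
  have hC := Cd_nonneg m
  have e1 : r ^ p * l1 A ^ (-p) = (r / l1 A) ^ p := by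
    rw [Real.div_rpow hr.le hl.le, Real.rpow_neg hl.le]
    rfl
  have hrp : 0 < r ^ p := Real.rpow_pos_of_pos hr p
  have hrm : (r : ℝ) ^ m = r ^ p * r ^ p := by
    rw [← Real.rpow_add hr, ← Real.rpow_natCast]
    congr 1
    rw [hp]
    ring
  have hal : al A = l1 A ^ (-p) + l1 (dm A) ^ (-p) / |A.det| := rfl
  have hlp : 0 < l1 A ^ (-p) := Real.rpow_pos_of_pos hl _
  have hlp' : 0 < l1 (dm A) ^ (-p) := Real.rpow_pos_of_pos hl' _
  rcases dich A hA r hr with h | h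
  · have h1 := Th_le A hA (1 / r ^ 2) (by positivity)
    rw [sqrt_one_div_sq r hr] at h1
    have h3 : (1 + 2 * r / l1 A) ^ p ≤ 2 ^ p * (1 + 2 ^ p * (r / l1 A) ^ p) := by
      have h4 := one_add_rpow (2 * r / l1 A) p (by positivity) hp0
      have h6 : (2 * r / l1 A) ^ p = 2 ^ p * (r / l1 A) ^ p := by
        rw [mul_div_assoc, Real.mul_rpow (by norm_num) (by positivity)]
      rwa [h6] at h4
    have h4 : Th A (1 / r ^ 2) ≤ Cd m * (2 ^ p * (1 + 2 ^ p * (r / l1 A) ^ p)) :=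
      h1.trans (mul_le_mul_of_nonneg_left (h.trans h3) hC)
    refine h4.trans ?_
    rw [← e1]
    have hX : 0 ≤ r ^ p * l1 A ^ (-p) := by positivity
    have hY : 0 ≤ r ^ m / |A.det| + r ^ p * (l1 (dm A) ^ (-p) / |A.det|) := by positivity
    have h7 : (2 : ℝ) ^ p * (1 + 2 ^ p * (r ^ p * l1 A ^ (-p))) ≤
        (5 ^ m * 2 ^ p * 2 ^ p) * (1 + (r ^ m / |A.det| + r ^ p * al A)) := by
      rw [hal]
      have h8 : (2 : ℝ) ^ p * (1 + 2 ^ p * (r ^ p * l1 A ^ (-p))) ≤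
          (2 ^ p * 2 ^ p) * (1 + r ^ p * l1 A ^ (-p)) := by nlinarith
      have h9 : (2 ^ p * 2 ^ p) * (1 + r ^ p * l1 A ^ (-p)) ≤
          (5 ^ m * 2 ^ p * 2 ^ p) * (1 + r ^ p * l1 A ^ (-p)) := by
        refine mul_le_mul_of_nonneg_right ?_ (by positivity)
        have : 0 < (2 : ℝ) ^ p * 2 ^ p := by positivity
        nlinarith
      refine h8.trans (h9.trans ?_)
      refine mul_le_mul_of_nonneg_left ?_ (by positivity)
      rw [mul_add]
      linarith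
    calc Cd m * (2 ^ p * (1 + 2 ^ p * (r ^ p * l1 A ^ (-p)))) ≤
        Cd m * ((5 ^ m * 2 ^ p * 2 ^ p) * (1 + (r ^ m / |A.det| + r ^ p * al A))) :=
          mul_le_mul_of_nonneg_left h7 hC
      _ = _ := by ring
  · have h1 := Th_le (dm A) (det_dm_ne hA) (r ^ 2) (by positivity)
    rw [Real.sqrt_sq hr.le] at h1
    have h2 := cnt_mul (dm A) (det_dm_ne hA) (1 / (2 * r)) (by positivity) 2
    have h3 : ((2 : ℕ) : ℝ) * (1 / (2 * r)) = r⁻¹ := by
      push_cast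
      field_simp
    rw [h3] at h2
    have h4 : (2 * ((2 : ℕ) : ℝ) + 1) = 5 := by norm_num
    rw [h4] at h2
    have h5' : Th (dm A) (r ^ 2) ≤ Cd m * (5 ^ m * (1 + 1 / (r * l1 (dm A))) ^ p) :=
      h1.trans (mul_le_mul_of_nonneg_left
        (h2.trans (mul_le_mul_of_nonneg_left h (by positivity))) hC)
    have h6 := one_add_rpow (1 / (r * l1 (dm A))) p (by positivity) hp0
    have h7 : (1 / (r * l1 (dm A))) ^ p = (r ^ p)⁻¹ * l1 (dm A) ^ (-p) := by
      rw [one_div, Real.inv_rpow (by positivity), Real.mul_rpow hr.le hl'.le, mul_inv,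
        Real.rpow_neg hl'.le]
    rw [h7] at h6
    rw [hP ι A hA r hr]
    have h8 : Th (dm A) (r ^ 2) ≤ Cd m * 5 ^ m * 2 ^ p * (1 + (r ^ p)⁻¹ * l1 (dm A) ^ (-p)) := by
      refine h5'.trans ?_
      have := mul_le_mul_of_nonneg_left h6 (by positivity : 0 ≤ Cd m * 5 ^ m)
      calc Cd m * (5 ^ m * (1 + 1 / (r * l1 (dm A))) ^ p) =
          Cd m * 5 ^ m * (1 + 1 / (r * l1 (dm A))) ^ p := by ring
        _ ≤ _ := this
        _ = _ := by ring
    have h9 : r ^ m * |A.det|⁻¹ * Th (dm A) (r ^ 2) ≤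
        r ^ m * |A.det|⁻¹ * (Cd m * 5 ^ m * 2 ^ p * (1 + (r ^ p)⁻¹ * l1 (dm A) ^ (-p))) :=
      mul_le_mul_of_nonneg_left h8 (by positivity)
    refine h9.trans ?_
    have h10 : r ^ m * |A.det|⁻¹ * (Cd m * 5 ^ m * 2 ^ p * (1 + (r ^ p)⁻¹ * l1 (dm A) ^ (-p))) =
        (Cd m * 5 ^ m * 2 ^ p) * (r ^ m / |A.det| + r ^ p * (l1 (dm A) ^ (-p) / |A.det|)) := by
      rw [hrm]
      field_simp
    rw [h10]
    have h11 : (Cd m * 5 ^ m * 2 ^ p) * (r ^ m / |A.det| + r ^ p * (l1 (dm A) ^ (-p) / |A.det|)) ≤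
        (Cd m * 5 ^ m * 2 ^ p * 2 ^ p) *
          (r ^ m / |A.det| + r ^ p * (l1 (dm A) ^ (-p) / |A.det|)) := by
      refine mul_le_mul_of_nonneg_right ?_ (by positivity)
      have : 0 ≤ Cd m * 5 ^ m * 2 ^ p := by positivity
      nlinarith
    refine h11.trans ?_
    refine mul_le_mul_of_nonneg_left ?_ (by positivity)
    rw [hal, mul_add]
    have : 0 ≤ r ^ p * l1 A ^ (-p) := by positivity
    linarith

end Pool.Agent.H61.MV
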