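import Pool.Agent.H61.MV.TB

/-!
# The bound for the theta function minus one
-/

set_option autoImplicit false

open MeasureTheory Set Filter Module
open scoped Matrix RealInnerProductSpace ENNReal

namespace Pool.Agent.H61.MV

variable {ι : Type} [Fintype ι] [DecidableEq ι]

lemma Th_sub_one (A : Matrix ι ι ℝ) (hA : A.det ≠ 0) (u : ℝ) (hu : 0 < u) :
    Th A u - 1 = ∑' n : ι → ℤ, if n = 0 then 0 else Real.exp (-Real.pi * (u * ‖vc A n‖ ^ 2)) := by
  have h := (summable_Th A hA u hu).tsum_eq_add_tsum_ite (0 : ι → ℤ)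
  unfold Th
  rw [h, vc_zero]
  simp

/-- large `u` -/
theorem Th_large [Nonempty ι] (A : Matrix ι ι ℝ) (hA : A.det ≠ 0) (u : ℝ) (hu : 0 < u)
    (h : 1 ≤ u * l1 A ^ 2) :
    Th A u - 1 ≤ Cd (Fintype.card ι) * 5 ^ Fintype.card ι *
      Real.exp (-(Real.pi / 2) * (u * l1 A ^ 2)) := by
  have hl := l1_pos A hA
  have h1 : Th A u - 1 ≤ Real.exp (-(Real.pi / 2) * (u * l1 A ^ 2)) * Th A (u / 2) := by
    rw [Th_sub_one A hA u hu]
    unfold Th
    rw [← tsum_mul_left]
    have hs := (summable_Th A hA (u / 2) (by linarith)).mul_left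
      (Real.exp (-(Real.pi / 2) * (u * l1 A ^ 2)))
    have hle : ∀ n : ι → ℤ, (if n = 0 then 0 else Real.exp (-Real.pi * (u * ‖vc A n‖ ^ 2))) ≤
        Real.exp (-(Real.pi / 2) * (u * l1 A ^ 2)) *
          Real.exp (-Real.pi * (u / 2 * ‖vc A n‖ ^ 2)) := by
      intro n
      split_ifs with hn
      · positivity
      · rw [← Real.exp_add]
        refine Real.exp_le_exp.mpr ?_
        have h2 := l1_le A n hn
        have h3 : l1 A ^ 2 ≤ ‖vc A n‖ ^ 2 := pow_le_pow_left₀ hl.le h2 2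
        have h4 : u * l1 A ^ 2 ≤ u * ‖vc A n‖ ^ 2 := mul_le_mul_of_nonneg_left h3 hu.le
        nlinarith [Real.pi_pos]
    refine Summable.tsum_le_tsum hle ?_ hs
    refine Summable.of_nonneg_of_le (fun n => ?_) hle hs
    split_ifs
    · exact le_rfl
    · positivity
  refine h1.trans ?_
  have h2 := Th_le A hA (u / 2) (by linarith)
  have hr : 0 < (Real.sqrt (u / 2))⁻¹ := inv_pos.mpr (Real.sqrt_pos.mpr (by linarith))
  have h3 := cnt_le_span A hA (Real.sqrt (u / 2))⁻¹ hr.le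
  have h4 : (Real.sqrt (u / 2))⁻¹ ≤ 2 * l1 A := by
    rw [inv_le_comm₀ (Real.sqrt_pos.mpr (by linarith)) (by positivity)]
    refine Real.le_sqrt_of_sq_le ?_
    rw [inv_pow, mul_pow]
    rw [inv_le_comm₀ (by positivity) (by positivity), inv_div]
    rw [div_le_iff₀ hu]
    nlinarith
  have h5 : (1 + 2 * (Real.sqrt (u / 2))⁻¹ / l1 A) ≤ 5 := by
    have : 2 * (Real.sqrt (u / 2))⁻¹ / l1 A ≤ 4 := by
      rw [div_le_iff₀ hl]
      linarith
    linarith
  have h6 : finrank ℝ (spb A (Real.sqrt (u / 2))⁻¹) ≤ Fintype.card ι := by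
    have := Submodule.finrank_le (spb A (Real.sqrt (u / 2))⁻¹)
    rwa [finrank_euclideanSpace] at this
  have h7 : (cnt A (Real.sqrt (u / 2))⁻¹ : ℝ) ≤ 5 ^ Fintype.card ι := by
    refine h3.trans ((pow_le_pow_left₀ (by positivity) h5 _).trans ?_)
    exact pow_le_pow_right₀ (by norm_num) h6
  have h8 : Th A (u / 2) ≤ Cd (Fintype.card ι) * 5 ^ Fintype.card ι :=
    h2.trans (mul_le_mul_of_nonneg_left h7 (Cd_nonneg _))
  rw [mul_comm]
  exact mul_le_mul_of_nonneg_right h8 (Real.exp_pos _).le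

/-- the constant in `TBr` -/
noncomputable def Ct (m : ℕ) : ℝ :=
  2 * (Cd m * 5 ^ m * (2 ^ ((m : ℝ) / 2)) * (2 ^ ((m : ℝ) / 2)) * m.factorial + 1)

lemma Ct_pos (m : ℕ) : 0 < Ct m := by
  unfold Ct
  have := Cd_nonneg m
  positivity

lemma exp_bound (m : ℕ) (x : ℝ) (hx : 1 ≤ x) :
    Real.exp (-(Real.pi / 2) * x) ≤ m.factorial * x ^ (-((m : ℝ) / 4)) := by
  have h1 : x ^ m / m.factorial ≤ Real.exp x := Real.pow_div_factorial_le_exp x (by linarith) m
  have h2 : x ^ ((m : ℝ) / 4) ≤ x ^ m := by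
    rw [← Real.rpow_natCast]
    refine Real.rpow_le_rpow_of_exponent_le hx ?_
    have : (0 : ℝ) ≤ m := Nat.cast_nonneg m
    linarith
  have hf : (0 : ℝ) < m.factorial := by positivity
  have h3 : x ^ m ≤ Real.exp x * m.factorial := by
    rwa [div_le_iff₀ hf] at h1
  have h4 : Real.exp x ≤ Real.exp (Real.pi / 2 * x) := by
    refine Real.exp_le_exp.mpr ?_
    have := Real.pi_gt_three
    nlinarith
  have h5 : x ^ ((m : ℝ) / 4) ≤ m.factorial * Real.exp (Real.pi / 2 * x) := by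
    have := mul_le_mul_of_nonneg_right h4 hf.le
    linarith
  rw [neg_mul, Real.exp_neg, Real.rpow_neg (by linarith), ← div_eq_mul_inv,
    le_div_iff₀ (Real.rpow_pos_of_pos (by linarith) _), inv_mul_le_iff₀ (Real.exp_pos _)]
  linarith

/-- (TB) -/
theorem TBr [Nonempty ι] (hP : Poi) (A : Matrix ι ι ℝ) (hA : A.det ≠ 0) (r : ℝ) (hr : 0 < r) :
    Th A (1 / r ^ 2) - 1 ≤ Ct (Fintype.card ι) *
      (r ^ Fintype.card ι / |A.det| + r ^ ((Fintype.card ι : ℝ) / 2) * al A) := by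
  set m := Fintype.card ι with hm
  set p : ℝ := (m : ℝ) / 2 with hp
  have hp0 : 0 ≤ p := by positivity
  have hl := l1_pos A hA
  have hd : 0 < |A.det| := abs_pos.mpr hA
  have hC := Cd_nonneg m
  have hl' := l1_pos (dm A) (det_dm_ne hA)
  have hlp' : 0 < l1 (dm A) ^ (-p) := Real.rpow_pos_of_pos hl' _
  have hal : al A = l1 A ^ (-p) + l1 (dm A) ^ (-p) / |A.det| := rfl
  have hrp : 0 < r ^ p := Real.rpow_pos_of_pos hr p
  have hlp : 0 < l1 A ^ (-p) := Real.rpow_pos_of_pos hl _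
  have h2p : (1 : ℝ) ≤ 2 ^ p := Real.one_le_rpow (by norm_num) hp0
  have hf : (1 : ℝ) ≤ m.factorial := by exact_mod_cast Nat.one_le_iff_ne_zero.mpr m.factorial_ne_zero
  set X := r ^ m / |A.det| + r ^ p * al A with hX
  have hXlow : (r / l1 A) ^ p ≤ X := by
    have e1 : (r / l1 A) ^ p = r ^ p * l1 A ^ (-p) := by
      rw [Real.div_rpow hr.le hl.le, Real.rpow_neg hl.le]
      rfl
    rw [e1, hX, hal, mul_add]
    have : 0 ≤ r ^ m / |A.det| + r ^ p * (l1 (dm A) ^ (-p) / |A.det|) := by positivity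
    linarith
  have hX0 : 0 ≤ X := le_trans (by positivity) hXlow
  set D := Cd m * 5 ^ m * 2 ^ p * 2 ^ p with hD
  have hD0 : 0 ≤ D := by positivity
  have hCt : Ct m = 2 * (D * m.factorial + 1) := rfl
  rcases le_total (l1 A) r with h | h
  · have h1 := Th_bound hP A hA r hr
    have h2 : 1 ≤ (r / l1 A) ^ p := Real.one_le_rpow ((one_le_div hl).mpr h) hp0
    have h3 : 1 ≤ X := h2.trans hXlow
    have h4 : Th A (1 / r ^ 2) ≤ D * (1 + X) := h1
    have h5 : D * (1 + X) ≤ 2 * D * X := by nlinarith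
    have h6 : 2 * D * X ≤ Ct m * X := by
      rw [hCt]
      refine mul_le_mul_of_nonneg_right ?_ hX0
      nlinarith
    linarith
  · have h0 : 1 ≤ 1 / r ^ 2 * l1 A ^ 2 := by
      rw [one_div, ← div_eq_inv_mul, one_le_div (by positivity)]
      exact pow_le_pow_left₀ hr.le h 2
    have h1 := Th_large A hA (1 / r ^ 2) (by positivity) h0
    have h2 := exp_bound m _ h0
    have h3 : (1 / r ^ 2 * l1 A ^ 2) ^ (-((m : ℝ) / 4)) = (r / l1 A) ^ p := by
      have e1 : 1 / r ^ 2 * l1 A ^ 2 = ((r / l1 A) ^ (2 : ℝ))⁻¹ := by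
        rw [Real.rpow_two, div_pow]
        field_simp
      rw [e1, ← Real.rpow_neg (by positivity), ← Real.rpow_mul (by positivity)]
      congr 1
      rw [hp]
      ring
    rw [h3] at h2
    have h4 : Th A (1 / r ^ 2) - 1 ≤ Cd m * 5 ^ m * (m.factorial * X) := by
      refine h1.trans (mul_le_mul_of_nonneg_left ?_ (by positivity))
      exact h2.trans (mul_le_mul_of_nonneg_left hXlow (by positivity))
    refine h4.trans ?_
    rw [hCt]
    have h5 : Cd m * 5 ^ m ≤ D := by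
      rw [hD, mul_assoc]
      have : 0 ≤ Cd m * 5 ^ m := by positivity
      nlinarith [mul_le_mul h2p h2p zero_le_one (by positivity)]
    have h6 : Cd m * 5 ^ m * (m.factorial * X) ≤ D * (m.factorial * X) :=
      mul_le_mul_of_nonneg_right h5 (by positivity)
    refine h6.trans ?_
    have : 0 ≤ D * m.factorial := by positivity
    nlinarith

end Pool.Agent.H61.MV
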