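import Pool.Agent.H61.MV.Dich

/-!
# Theta functions and counting functions
-/

set_option autoImplicit false

open MeasureTheory Set Filter Module
open scoped Matrix RealInnerProductSpace ENNReal

namespace Pool.Agent.H61.MV

variable {ι : Type} [Fintype ι] [DecidableEq ι]

/-- the theta function of the lattice `A` -/
noncomputable def Th (A : Matrix ι ι ℝ) (u : ℝ) : ℝ :=
  ∑' n : ι → ℤ, Real.exp (-Real.pi * (u * ‖vc A n‖ ^ 2))

/-- the constant in the comparison of theta functions and counting functions -/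
noncomputable def Cd (m : ℕ) : ℝ := ∑' j : ℕ, Real.exp (-Real.pi * (j : ℝ) ^ 2) * (2 * ((j : ℝ) + 1) + 1) ^ m

lemma summable_Cd (m : ℕ) :
    Summable (fun j : ℕ => Real.exp (-Real.pi * (j : ℝ) ^ 2) * (2 * ((j : ℝ) + 1) + 1) ^ m) := by
  have h1 : Summable (fun j : ℕ => (3 : ℝ) ^ m * Real.exp Real.pi *
      ((((j + 1 : ℕ) : ℝ)) ^ m * Real.exp (-Real.pi * ((j + 1 : ℕ) : ℝ)))) := by
    refine Summable.mul_left _ ?_
    exact (summable_nat_add_iff 1).mpr (Real.summable_pow_mul_exp_neg_nat_mul m Real.pi_pos)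
  refine Summable.of_nonneg_of_le (fun j => by positivity) (fun j => ?_) h1
  have hj : (j : ℝ) ≤ (j : ℝ) ^ 2 := by
    rcases Nat.eq_zero_or_pos j with rfl | h
    · simp
    · have : (1 : ℝ) ≤ j := by exact_mod_cast h
      nlinarith
  have h2 : Real.exp (-Real.pi * (j : ℝ) ^ 2) ≤ Real.exp (-Real.pi * j) := by
    refine Real.exp_le_exp.mpr ?_
    nlinarith [Real.pi_pos]
  have h3 : (2 * ((j : ℝ) + 1) + 1) ^ m ≤ (3 * ((j : ℝ) + 1)) ^ m := by
    refine pow_le_pow_left₀ (by positivity) ?_ m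
    have : (0 : ℝ) ≤ j := Nat.cast_nonneg j
    linarith
  refine (mul_le_mul h2 h3 (by positivity) (by positivity)).trans (le_of_eq ?_)
  have h4 : Real.exp (-Real.pi * j) = Real.exp Real.pi * Real.exp (-Real.pi * ((j + 1 : ℕ) : ℝ)) := by
    rw [← Real.exp_add]
    congr 1
    push_cast
    ring
  rw [h4, mul_pow]
  push_cast
  ring

lemma Cd_nonneg (m : ℕ) : 0 ≤ Cd m := tsum_nonneg fun j => by positivity

theorem sum_le (A : Matrix ι ι ℝ) (hA : A.det ≠ 0) (r : ℝ) (hr : 0 < r) (F : Finset (ι → ℤ)) :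
    ∑ n ∈ F, Real.exp (-Real.pi * (‖vc A n‖ / r) ^ 2) ≤ Cd (Fintype.card ι) * cnt A r := by
  classical
  let j : (ι → ℤ) → ℕ := fun n => ⌊‖vc A n‖ / r⌋₊
  have h1 : ∑ n ∈ F, Real.exp (-Real.pi * (‖vc A n‖ / r) ^ 2) ≤
      ∑ n ∈ F, Real.exp (-Real.pi * ((j n : ℕ) : ℝ) ^ 2) := by
    refine Finset.sum_le_sum fun n _ => Real.exp_le_exp.mpr ?_
    have h2 : ((j n : ℕ) : ℝ) ≤ ‖vc A n‖ / r := Nat.floor_le (by positivity)
    have h3 : ((j n : ℕ) : ℝ) ^ 2 ≤ (‖vc A n‖ / r) ^ 2 :=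
      pow_le_pow_left₀ (Nat.cast_nonneg _) h2 2
    nlinarith [Real.pi_pos]
  refine h1.trans ?_
  rw [← Finset.sum_fiberwise_of_maps_to (s := F) (t := F.image j) (g := j)
    (fun n hn => Finset.mem_image_of_mem j hn)]
  have h2 : ∀ i ∈ F.image j, ∑ n ∈ F with j n = i, Real.exp (-Real.pi * ((j n : ℕ) : ℝ) ^ 2) ≤
      (Real.exp (-Real.pi * (i : ℝ) ^ 2) * (2 * ((i : ℝ) + 1) + 1) ^ Fintype.card ι) *
        cnt A r := by
    intro i _
    have h3 : ∀ n ∈ F.filter (fun n => j n = i), Real.exp (-Real.pi * ((j n : ℕ) : ℝ) ^ 2) =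
        Real.exp (-Real.pi * (i : ℝ) ^ 2) := by
      intro n hn
      rw [(Finset.mem_filter.mp hn).2]
    rw [Finset.sum_congr rfl h3, Finset.sum_const, nsmul_eq_mul]
    have h4 : ((F.filter (fun n => j n = i)).card : ℝ) ≤
        (2 * ((i : ℝ) + 1) + 1) ^ Fintype.card ι * cnt A r := by
      have h5 := cnt_mul A hA r hr (i + 1)
      have h6 : (F.filter (fun n => j n = i)).card ≤ cnt A (((i + 1 : ℕ) : ℝ) * r) := by
        unfold cnt
        rw [← Set.ncard_coe_finset]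
        refine Set.ncard_le_ncard ?_ (fin_ball A hA _)
        intro n hn
        have h7 := (Finset.mem_filter.mp hn).2
        have h8 : ‖vc A n‖ / r < i + 1 := by
          rw [← h7]
          exact Nat.lt_floor_add_one _
        rw [div_lt_iff₀ hr] at h8
        show ‖vc A n‖ ≤ ((i + 1 : ℕ) : ℝ) * r
        push_cast
        exact h8.le
      refine le_trans (by exact_mod_cast h6) (h5.trans (le_of_eq ?_))
      push_cast
      ring
    rw [mul_comm (((F.filter (fun n => j n = i)).card : ℝ)) _, mul_assoc]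
    exact mul_le_mul_of_nonneg_left h4 (Real.exp_pos _).le
  refine (Finset.sum_le_sum h2).trans ?_
  rw [← Finset.sum_mul]
  refine mul_le_mul_of_nonneg_right ?_ (Nat.cast_nonneg _)
  exact (summable_Cd _).sum_le_tsum _ fun i _ => by positivity

lemma summable_Th (A : Matrix ι ι ℝ) (hA : A.det ≠ 0) (u : ℝ) (hu : 0 < u) :
    Summable (fun n : ι → ℤ => Real.exp (-Real.pi * (u * ‖vc A n‖ ^ 2))) := by
  have hr : 0 < (Real.sqrt u)⁻¹ := inv_pos.mpr (Real.sqrt_pos.mpr hu)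
  refine summable_of_sum_le (c := Cd (Fintype.card ι) * cnt A (Real.sqrt u)⁻¹)
    (fun n => (Real.exp_pos _).le) fun F => ?_
  refine le_trans (le_of_eq ?_) (sum_le A hA _ hr F)
  refine Finset.sum_congr rfl fun n _ => ?_
  congr 2
  rw [div_inv_eq_mul, mul_pow, Real.sq_sqrt hu.le]
  ring

theorem Th_le (A : Matrix ι ι ℝ) (hA : A.det ≠ 0) (u : ℝ) (hu : 0 < u) :
    Th A u ≤ Cd (Fintype.card ι) * cnt A (Real.sqrt u)⁻¹ := by
  have hr : 0 < (Real.sqrt u)⁻¹ := inv_pos.mpr (Real.sqrt_pos.mpr hu)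
  refine Real.tsum_le_of_sum_le (fun n => (Real.exp_pos _).le) fun F => ?_
  refine le_trans (le_of_eq ?_) (sum_le A hA _ hr F)
  refine Finset.sum_congr rfl fun n _ => ?_
  congr 2
  rw [div_inv_eq_mul, mul_pow, Real.sq_sqrt hu.le]
  ring

lemma one_le_Th (A : Matrix ι ι ℝ) (hA : A.det ≠ 0) (u : ℝ) (hu : 0 < u) : 1 ≤ Th A u := by
  have h := (summable_Th A hA u hu).le_tsum (0 : ι → ℤ) fun n _ => (Real.exp_pos _).le
  rw [vc_zero] at h
  simpa [Th] using h

lemma Th_anti (A : Matrix ι ι ℝ) (hA : A.det ≠ 0) {u u' : ℝ} (hu : 0 < u) (h : u ≤ u') :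
    Th A u' ≤ Th A u := by
  refine (summable_Th A hA u' (hu.trans_le h)).tsum_le_tsum ?_ (summable_Th A hA u hu)
  intro n
  refine Real.exp_le_exp.mpr ?_
  have h1 : u * ‖vc A n‖ ^ 2 ≤ u' * ‖vc A n‖ ^ 2 := mul_le_mul_of_nonneg_right h (sq_nonneg _)
  nlinarith [Real.pi_pos]

end Pool.Agent.H61.MV
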